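import Pool.Agent.H41.PairIntDefs

/-!
Large pairwise intersecting subfamilies of dense set systems: the two combinatorial tools.

* `drc`: dependent random choice. Pick `t` random points and keep the members containing all of
  them; delete one member from every pair of small intersection.
* `cube_blowup`: on the cube `Fin d → Bool` the exponential moment of the distance to a set.
-/

set_option autoImplicit false

namespace Pool.Agent.H41.PairInt

open Finset

lemma card_all_mem {n t : ℕ} (B : Finset (Fin n)) :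
    ((univ : Finset (Fin t → Fin n)).filter (fun s => ∀ j, s j ∈ B)).card = B.card ^ t := by
  have : (univ : Finset (Fin t → Fin n)).filter (fun s => ∀ j, s j ∈ B)
      = Fintype.piFinset (fun _ => B) := by
    ext s; simp [Fintype.mem_piFinset]
  rw [this, Fintype.card_piFinset]
  simp

/-- `B` beats `A'`: it occurs more often in the sequence, ties being broken by an enumeration. -/
def Beats {n m : ℕ} (A : Fin m → Finset (Fin n)) (B A' : Finset (Fin n)) : Prop :=
  (univ.filter (fun i => A i = A')).card < (univ.filter (fun i => A i = B)).card ∨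
  ((univ.filter (fun i => A i = A')).card = (univ.filter (fun i => A i = B)).card ∧
    Fintype.equivFin (Finset (Fin n)) A' < Fintype.equivFin (Finset (Fin n)) B)

lemma beats_total {n m : ℕ} (A : Fin m → Finset (Fin n)) {B A' : Finset (Fin n)} (h : B ≠ A') :
    Beats A B A' ∨ Beats A A' B := by
  unfold Beats
  rcases lt_trichotomy (univ.filter (fun i => A i = A')).card
    (univ.filter (fun i => A i = B)).card with h1 | h1 | h1
  · left; left; exact h1
  · rcases lt_trichotomy (Fintype.equivFin (Finset (Fin n)) A')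
      (Fintype.equivFin (Finset (Fin n)) B) with h2 | h2 | h2
    · left; right; exact ⟨h1, h2⟩
    · exact absurd ((Fintype.equivFin _).injective h2).symm h
    · right; right; exact ⟨h1.symm, h2⟩
  · right; left; exact h1

lemma beats_asymm {n m : ℕ} (A : Fin m → Finset (Fin n)) {B A' : Finset (Fin n)}
    (h : Beats A B A') : ¬ Beats A A' B := by
  unfold Beats at *
  rintro h'
  rcases h with h | ⟨h, h2⟩ <;> rcases h' with h' | ⟨h', h2'⟩
  · omega
  · omega
  · omega
  · exact absurd h2 (not_lt.mpr h2'.le)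

/-- The number of pairs (index `i`, member `B` beating `A i`) is at most `m N / 2`, where `N` is
the number of distinct members. -/
lemma card_beats {n m : ℕ} (A : Fin m → Finset (Fin n)) [DecidableRel (Beats A)] :
    2 * (((univ : Finset (Fin m)) ×ˢ (univ.image A)).filter
      (fun p => Beats A p.2 (A p.1))).card ≤ m * (univ.image A).card := by
  classical
  set R := (univ : Finset (Fin m)).image A with hR
  set mu : Finset (Fin n) → ℕ := fun B => (univ.filter (fun i => A i = B)).card with hmu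
  -- sums over indices are weighted sums over members
  have hsum : ∀ g : Finset (Fin n) → ℕ, ∑ i, g (A i) = ∑ B ∈ R, mu B * g B := by
    intro g
    rw [← Finset.sum_fiberwise_of_maps_to (s := univ) (t := R) (g := A)
      (fun i _ => mem_image_of_mem A (mem_univ i))]
    refine Finset.sum_congr rfl fun B _ => ?_
    rw [Finset.sum_congr rfl (g := fun _ => g B) (by
      intro i hi; rw [(mem_filter.mp hi).2]), sum_const, smul_eq_mul]
  have h1 : (((univ : Finset (Fin m)) ×ˢ R).filter (fun p => Beats A p.2 (A p.1))).card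
      = ∑ C ∈ R, mu C * (∑ B ∈ R, if Beats A B C then 1 else 0) := by
    rw [Finset.card_filter, Finset.sum_product]
    exact hsum (fun C => ∑ B ∈ R, if Beats A B C then 1 else 0)
  have hm : m = ∑ C ∈ R, mu C := by
    have := hsum (fun _ => 1)
    simpa using this
  rw [h1]
  have h2 : ∑ C ∈ R, mu C * (∑ B ∈ R, if Beats A B C then 1 else 0)
      ≤ ∑ C ∈ R, ∑ B ∈ R, mu B * (if Beats A B C then 1 else 0) := by
    refine Finset.sum_le_sum fun C _ => ?_
    rw [Finset.mul_sum]
    refine Finset.sum_le_sum fun B _ => ?_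
    by_cases hb : Beats A B C
    · simp only [hb, if_true, mul_one]
      unfold Beats at hb
      rcases hb with hb | hb
      · exact hb.le
      · exact hb.1.le
    · simp [hb]
  have h3 : ∑ C ∈ R, ∑ B ∈ R, mu B * (if Beats A B C then 1 else 0)
      = ∑ C ∈ R, mu C * (∑ B ∈ R, if Beats A C B then 1 else 0) := by
    rw [Finset.sum_comm]
    refine Finset.sum_congr rfl fun C _ => ?_
    rw [Finset.mul_sum]
  have h4 : ∑ C ∈ R, mu C * (∑ B ∈ R, if Beats A B C then 1 else 0)
      + ∑ C ∈ R, mu C * (∑ B ∈ R, if Beats A C B then 1 else 0) ≤ m * R.card := by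
    conv_rhs => rw [hm, Finset.sum_mul]
    rw [← Finset.sum_add_distrib]
    refine Finset.sum_le_sum fun C _ => ?_
    rw [← mul_add, ← Finset.sum_add_distrib]
    refine Nat.mul_le_mul_left _ ?_
    calc ∑ B ∈ R, ((if Beats A B C then 1 else 0) + if Beats A C B then 1 else 0)
        ≤ ∑ _B ∈ R, 1 := by
          refine Finset.sum_le_sum fun B _ => ?_
          by_cases hb : Beats A B C
          · have := beats_asymm A hb
            simp [hb, this]
          · simp only [hb, if_false, zero_add]; split_ifs <;> simp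
      _ = R.card := by simp
  omega

/-- Dependent random choice, with multiplicities. `N` is the number of distinct members. -/
lemma drc {n m : ℕ} (t : ℕ) {c ε : ℝ} (hc : 0 ≤ c) (hε : 0 ≤ ε) (hεc : ε ≤ c) (hn : 1 ≤ n)
    (A : Fin m → Finset (Fin n)) (hA : Dense n m c A) :
    ∃ I, EpsInt n m ε A I ∧
      (m : ℝ) * c ^ t - (m : ℝ) * (univ.image A).card / 2 * ε ^ t ≤ (I.card : ℝ) := by
  classical
  set R := (univ : Finset (Fin m)).image A with hR
  set F : (Fin t → Fin n) → Finset (Fin m) := fun s => univ.filter (fun i => ∀ j, s j ∈ A i)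
    with hF
  set Bad : Finset (Fin m × Finset (Fin n)) := (univ ×ˢ R).filter
    (fun p => Beats A p.2 (A p.1) ∧ ((A p.1 ∩ p.2).card : ℝ) ≤ ε * n) with hBad
  set P : (Fin t → Fin n) → Finset (Fin m × Finset (Fin n)) := fun s =>
    Bad.filter (fun p => ∀ j, s j ∈ A p.1 ∩ p.2) with hP
  set I : (Fin t → Fin n) → Finset (Fin m) := fun s => F s \ (P s).image Prod.fst with hI
  have hInt : ∀ s, EpsInt n m ε A (I s) := by
    intro s i hi j hj hij
    by_contra hcon
    push Not at hcon
    simp only [hI, mem_sdiff, hF, mem_filter, mem_univ, true_and, mem_image, not_exists,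
      not_and] at hi hj
    have hne : A i ≠ A j := by
      intro h
      rw [h, inter_self] at hcon
      have h1 := hA j
      have h2 : (0 : ℝ) ≤ n := by positivity
      nlinarith
    have hRi : A i ∈ R := mem_image_of_mem A (mem_univ i)
    have hRj : A j ∈ R := mem_image_of_mem A (mem_univ j)
    rcases beats_total A hne with h | h
    · refine hj.2 (j, A i) ?_ rfl
      simp only [hP, hBad, mem_filter, mem_product, mem_univ, true_and, mem_inter]
      refine ⟨⟨hRi, h, ?_⟩, fun l => ⟨hj.1 l, hi.1 l⟩⟩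
      rw [inter_comm]; exact hcon
    · refine hi.2 (i, A j) ?_ rfl
      simp only [hP, hBad, mem_filter, mem_product, mem_univ, true_and, mem_inter]
      exact ⟨⟨hRj, h, hcon⟩, fun l => ⟨hi.1 l, hj.1 l⟩⟩
  have hcard : ∀ s, ((F s).card : ℝ) - ((P s).card : ℝ) ≤ ((I s).card : ℝ) := by
    intro s
    have h1 : (F s).card ≤ (I s).card + ((P s).image Prod.fst).card := by
      simp only [hI]
      have := Finset.card_le_card_sdiff_add_card (s := F s) (t := (P s).image Prod.fst)
      omega
    have h2 : ((P s).image Prod.fst).card ≤ (P s).card := card_image_le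
    have h3 : ((F s).card : ℝ) ≤ ((I s).card : ℝ) + ((P s).card : ℝ) := by
      exact_mod_cast h1.trans (Nat.add_le_add_left h2 _)
    linarith
  have sumF : ∑ s, ((F s).card : ℝ) = ∑ i, ((A i).card : ℝ) ^ t := by
    have h1 : ∀ s, ((F s).card : ℝ) = ∑ i, if (∀ j, s j ∈ A i) then (1 : ℝ) else 0 := by
      intro s; simp [hF]
    simp_rw [h1]
    rw [Finset.sum_comm]
    refine Finset.sum_congr rfl fun i _ => ?_
    rw [← Finset.sum_filter, Finset.sum_const, nsmul_eq_mul, mul_one, card_all_mem]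
    push_cast; ring
  have sumP : ∑ s, ((P s).card : ℝ) = ∑ p ∈ Bad, ((A p.1 ∩ p.2).card : ℝ) ^ t := by
    have h1 : ∀ s, ((P s).card : ℝ)
        = ∑ p ∈ Bad, if (∀ j, s j ∈ A p.1 ∩ p.2) then (1 : ℝ) else 0 := by
      intro s; simp [hP]
    simp_rw [h1]
    rw [Finset.sum_comm]
    refine Finset.sum_congr rfl fun p _ => ?_
    rw [← Finset.sum_filter, Finset.sum_const, nsmul_eq_mul, mul_one, card_all_mem]
    push_cast; ring
  have hn0 : (0 : ℝ) < n := by exact_mod_cast hn
  have lowF : (m : ℝ) * (c * n) ^ t ≤ ∑ s, ((F s).card : ℝ) := by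
    rw [sumF]
    calc (m : ℝ) * (c * n) ^ t = ∑ _i : Fin m, (c * n) ^ t := by simp
      _ ≤ _ := Finset.sum_le_sum fun i _ => pow_le_pow_left₀ (by positivity) (hA i).le _
  have hBadcard : (Bad.card : ℝ) ≤ (m : ℝ) * R.card / 2 := by
    have h1 : Bad.card ≤ ((univ ×ˢ R).filter (fun p => Beats A p.2 (A p.1))).card := by
      apply card_le_card
      intro p hp
      simp only [hBad, mem_filter] at hp ⊢
      exact ⟨hp.1, hp.2.1⟩
    have h2 := card_beats A
    have h3 : 2 * Bad.card ≤ m * R.card := by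
      rw [hR]
      refine le_trans ?_ h2
      exact Nat.mul_le_mul_left 2 h1
    have h4 : 2 * (Bad.card : ℝ) ≤ m * R.card := by exact_mod_cast h3
    linarith
  have upP : ∑ s, ((P s).card : ℝ) ≤ (m : ℝ) * R.card / 2 * (ε * n) ^ t := by
    rw [sumP]
    calc ∑ p ∈ Bad, ((A p.1 ∩ p.2).card : ℝ) ^ t
        ≤ ∑ _p ∈ Bad, (ε * n) ^ t := by
          refine Finset.sum_le_sum fun p hp => pow_le_pow_left₀ (by positivity) ?_ _
          simp only [hBad, mem_filter] at hp
          exact hp.2.2
      _ = Bad.card * (ε * n) ^ t := by rw [sum_const, nsmul_eq_mul]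
      _ ≤ _ := by
          apply mul_le_mul_of_nonneg_right hBadcard
          positivity
  by_contra hcon
  push Not at hcon
  have hlt : ∀ s, ((I s).card : ℝ) < (m : ℝ) * c ^ t - (m : ℝ) * R.card / 2 * ε ^ t :=
    fun s => hcon (I s) (hInt s)
  have hne : (univ : Finset (Fin t → Fin n)).Nonempty := by
    have : Nonempty (Fin n) := ⟨⟨0, hn⟩⟩
    exact univ_nonempty
  have h1 : ∑ s, ((I s).card : ℝ)
      < ∑ _s : Fin t → Fin n, ((m : ℝ) * c ^ t - (m : ℝ) * R.card / 2 * ε ^ t) :=
    Finset.sum_lt_sum_of_nonempty hne fun s _ => hlt s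
  have h2 : ∑ _s : Fin t → Fin n, ((m : ℝ) * c ^ t - (m : ℝ) * R.card / 2 * ε ^ t)
      = (n : ℝ) ^ t * ((m : ℝ) * c ^ t - (m : ℝ) * R.card / 2 * ε ^ t) := by
    rw [sum_const, nsmul_eq_mul]
    congr 1
    simp
  have h3 : ∑ s, ((F s).card : ℝ) - ∑ s, ((P s).card : ℝ) ≤ ∑ s, ((I s).card : ℝ) := by
    rw [← Finset.sum_sub_distrib]
    exact Finset.sum_le_sum fun s _ => hcard s
  have h4 : (m : ℝ) * (c * n) ^ t - (m : ℝ) * R.card / 2 * (ε * n) ^ t
      = (n : ℝ) ^ t * ((m : ℝ) * c ^ t - (m : ℝ) * R.card / 2 * ε ^ t) := by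
    rw [mul_pow, mul_pow]; ring
  linarith

/-! ### The cube -/

/-- distance from `x` to the set `B` -/
noncomputable def dd {d : ℕ} (B : Finset (Fin d → Bool)) (x : Fin d → Bool) : ℕ :=
  sInf {k | ∃ y ∈ B, hammingDist x y = k}

lemma dd_le {d : ℕ} {B : Finset (Fin d → Bool)} {x y : Fin d → Bool} (hy : y ∈ B) :
    dd B x ≤ hammingDist x y := Nat.sInf_le ⟨y, hy, rfl⟩

lemma exists_dd {d : ℕ} {B : Finset (Fin d → Bool)} (hB : B.Nonempty) (x : Fin d → Bool) :
    ∃ y ∈ B, hammingDist x y = dd B x := by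
  have : ({k | ∃ y ∈ B, hammingDist x y = k} : Set ℕ).Nonempty := by
    obtain ⟨y, hy⟩ := hB
    exact ⟨_, y, hy, rfl⟩
  exact Nat.sInf_mem this

/-- the section of `B` over the first coordinate `b` -/
def sec {d : ℕ} (B : Finset (Fin (d + 1) → Bool)) (b : Bool) : Finset (Fin d → Bool) :=
  univ.filter (fun y => Fin.cons b y ∈ B)

lemma mem_sec {d : ℕ} {B : Finset (Fin (d + 1) → Bool)} {b : Bool} {y : Fin d → Bool} :
    y ∈ sec B b ↔ (Fin.cons b y : Fin (d + 1) → Bool) ∈ B := by simp [sec]

lemma hamming_cons {d : ℕ} (b b' : Bool) (x y : Fin d → Bool) :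
    hammingDist (Fin.cons b x : Fin (d + 1) → Bool) (Fin.cons b' y)
      = (if b = b' then 0 else 1) + hammingDist x y := by
  unfold hammingDist
  rw [Finset.card_filter, Finset.card_filter, Fin.sum_univ_succ]
  by_cases h : b = b' <;> simp [h]

lemma sum_cons {d : ℕ} (g : (Fin (d + 1) → Bool) → ℝ) :
    ∑ x, g x = ∑ x : Fin d → Bool, g (Fin.cons false x) + ∑ x : Fin d → Bool, g (Fin.cons true x) := by
  rw [← (Fin.consEquiv (fun _ : Fin (d + 1) => Bool)).sum_comp, Fintype.sum_prod_type]
  rw [Fintype.sum_bool]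
  simp only [Fin.consEquiv, Equiv.coe_fn_mk]
  rw [add_comm]

lemma card_sec {d : ℕ} (B : Finset (Fin (d + 1) → Bool)) :
    (B.card : ℝ) = ((sec B false).card : ℝ) + ((sec B true).card : ℝ) := by
  have h1 : (B.card : ℝ) = ∑ x, if x ∈ B then (1 : ℝ) else 0 := by simp
  rw [h1, sum_cons]
  simp [sec]

lemma exp_ineq (l : ℝ) : 2 + Real.exp l + (Real.exp l)⁻¹ ≤ 4 * Real.exp (l ^ 2 / 4) := by
  have h1 := Real.cosh_le_exp_half_sq (l / 2)
  have h2 : Real.cosh (l / 2) ^ 2 ≤ Real.exp (l ^ 2 / 4) := by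
    have h3 : Real.exp (l ^ 2 / 4) = Real.exp ((l / 2) ^ 2 / 2) ^ 2 := by
      rw [← Real.exp_nat_mul]; congr 1; push_cast; ring
    rw [h3]
    exact pow_le_pow_left₀ (Real.cosh_pos _).le h1 2
  have h4 : 2 + Real.exp l + (Real.exp l)⁻¹ = 4 * Real.cosh (l / 2) ^ 2 := by
    rw [Real.cosh_eq]
    have h5 : Real.exp l = Real.exp (l / 2) ^ 2 := by
      rw [← Real.exp_nat_mul]; congr 1; push_cast; ring
    have h6 : Real.exp (-(l / 2)) = (Real.exp (l / 2))⁻¹ := Real.exp_neg _
    rw [h5, h6]
    have h7 : Real.exp (l / 2) ≠ 0 := (Real.exp_pos _).ne'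
    field_simp
    ring
  rw [h4]; linarith

lemma step_ineq {l a b K Ua Ub : ℝ} (hl : 0 ≤ l) (ha : 0 < a) (hb : 0 ≤ b) (hba : b ≤ a)
    (hK : 0 ≤ K) (h1 : Ua * a ≤ K) (h2 : Ub * a ≤ Real.exp l * K) (h3 : Ub * b ≤ K) :
    (Ua + Ub) * (a + b) ≤ 4 * Real.exp (l ^ 2 / 4) * K := by
  have hE : 1 ≤ Real.exp l := Real.one_le_exp hl
  have hE0 : 0 < Real.exp l := Real.exp_pos l
  set E := Real.exp l with hEdef
  have key := exp_ineq l
  rw [← hEdef] at key
  have hUa : Ua ≤ K / a := by rw [le_div_iff₀ ha]; exact h1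
  have hUb : Ub ≤ E * K / a := by rw [le_div_iff₀ ha]; exact h2
  by_cases hc : b * E ≤ a
  · have hab : b / a ≤ E⁻¹ := by
      rw [div_le_iff₀ ha, inv_mul_eq_div, le_div_iff₀ hE0]; exact hc
    calc (Ua + Ub) * (a + b) ≤ (K / a + E * K / a) * (a + b) := by
          apply mul_le_mul_of_nonneg_right _ (by positivity); linarith
      _ = K * ((1 + E) * (1 + b / a)) := by field_simp
      _ ≤ K * ((1 + E) * (1 + E⁻¹)) := by
          apply mul_le_mul_of_nonneg_left _ hK
          apply mul_le_mul_of_nonneg_left _ (by positivity)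
          linarith
      _ = K * (2 + E + E⁻¹) := by field_simp; ring
      _ ≤ K * (4 * Real.exp (l ^ 2 / 4)) := mul_le_mul_of_nonneg_left key hK
      _ = _ := by ring
  · push Not at hc
    have hb0 : 0 < b := by
      by_contra h
      have : b = 0 := le_antisymm (not_lt.mp h) hb
      rw [this] at hc; linarith
    have hUb' : Ub ≤ K / b := by rw [le_div_iff₀ hb0]; exact h3
    have hx1 : 1 ≤ a / b := by rw [le_div_iff₀ hb0]; linarith
    have hx2 : a / b ≤ E := by rw [div_le_iff₀ hb0]; linarith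
    have hx3 : a / b + b / a ≤ E + E⁻¹ := by
      have h5 : b / a = (a / b)⁻¹ := by rw [inv_div]
      rw [h5]
      set x := a / b with hx
      have hx0 : 0 < x := by linarith
      have h6 : E + E⁻¹ - (x + x⁻¹) = (E - x) * (E * x - 1) / (E * x) := by
        field_simp
        ring
      have h7 : 0 ≤ (E - x) * (E * x - 1) / (E * x) := by
        apply div_nonneg _ (by positivity)
        apply mul_nonneg (by linarith)
        nlinarith
      linarith
    calc (Ua + Ub) * (a + b) ≤ (K / a + K / b) * (a + b) := by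
          apply mul_le_mul_of_nonneg_right _ (by positivity); linarith
      _ = K * (2 + (a / b + b / a)) := by field_simp; ring
      _ ≤ K * (2 + E + E⁻¹) := by
          apply mul_le_mul_of_nonneg_left _ hK; linarith
      _ ≤ K * (4 * Real.exp (l ^ 2 / 4)) := mul_le_mul_of_nonneg_left key hK
      _ = _ := by ring

/-- Exponential moment of the distance to a nonempty set in the cube. -/
lemma cube_blowup {l : ℝ} (hl : 0 ≤ l) : ∀ (d : ℕ) (B : Finset (Fin d → Bool)), B.Nonempty →
    (∑ x, Real.exp (l * dd B x)) * (B.card : ℝ) ≤ (4 * Real.exp (l ^ 2 / 4)) ^ d := by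
  intro d
  induction d with
  | zero =>
    intro B hB
    obtain ⟨y, hy⟩ := hB
    have hBy : B = {y} := by
      ext z; constructor
      · intro _; rw [mem_singleton]; exact Subsingleton.elim _ _
      · intro hz; rw [mem_singleton] at hz; rw [hz]; exact hy
    have h0 : ∀ x, dd B x = 0 := by
      intro x
      have h1 := dd_le (x := x) hy
      have h2 : x = y := Subsingleton.elim _ _
      rw [h2, hammingDist_self] at h1
      rw [h2]; omega
    simp_rw [h0]
    simp [hBy]
  | succ d ih =>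
    intro B hB
    rw [sum_cons, card_sec]
    set K := (4 * Real.exp (l ^ 2 / 4)) ^ d with hK
    have hK0 : 0 ≤ K := by positivity
    have hsame : ∀ b x, (sec B b).Nonempty → dd B (Fin.cons b x) ≤ dd (sec B b) x := by
      intro b x hne
      obtain ⟨y, hy, hyd⟩ := exists_dd hne x
      have h1 := dd_le (x := Fin.cons b x) (mem_sec.mp hy)
      rw [hamming_cons] at h1
      simp at h1
      omega
    have hother : ∀ b b' x, (sec B b').Nonempty → dd B (Fin.cons b x) ≤ 1 + dd (sec B b') x := by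
      intro b b' x hne
      obtain ⟨y, hy, hyd⟩ := exists_dd hne x
      have h1 := dd_le (x := Fin.cons b x) (mem_sec.mp hy)
      rw [hamming_cons] at h1
      split_ifs at h1 <;> omega
    have main : ∀ b b' : Bool, b ≠ b' → (sec B b').card ≤ (sec B b).card →
        (∑ x : Fin d → Bool, Real.exp (l * dd B (Fin.cons b x))
          + ∑ x : Fin d → Bool, Real.exp (l * dd B (Fin.cons b' x)))
          * (((sec B b).card : ℝ) + ((sec B b').card : ℝ)) ≤ 4 * Real.exp (l ^ 2 / 4) * K := by
      intro b b' hbb hle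
      have hne : (sec B b).Nonempty := by
        rw [← card_pos]
        by_contra h
        have h1 : (sec B b).card = 0 := by omega
        have h2 : (sec B b').card = 0 := by omega
        obtain ⟨z, hz⟩ := hB
        have hz' : (Fin.cons (z 0) (Fin.tail z) : Fin (d + 1) → Bool) ∈ B := by
          rw [Fin.cons_self_tail]; exact hz
        rw [card_eq_zero] at h1 h2
        have h3 : Fin.tail z ∈ sec B (z 0) := mem_sec.mpr hz'
        have h4 : z 0 = b ∨ z 0 = b' := by
          cases hz0 : z 0 <;> cases b <;> cases b' <;> simp_all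
        rcases h4 with h4 | h4 <;> rw [h4] at h3
        · rw [h1] at h3; simp at h3
        · rw [h2] at h3; simp at h3
      have ha : (0 : ℝ) < ((sec B b).card : ℝ) := by exact_mod_cast card_pos.mpr hne
      have hT := ih (sec B b) hne
      apply step_ineq hl ha (by positivity) (by exact_mod_cast hle) hK0
      · refine le_trans (mul_le_mul_of_nonneg_right ?_ ha.le) hT
        refine Finset.sum_le_sum fun x _ => Real.exp_le_exp.mpr ?_
        apply mul_le_mul_of_nonneg_left _ hl
        exact_mod_cast hsame b x hne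
      · have h5 : ∑ x : Fin d → Bool, Real.exp (l * dd B (Fin.cons b' x))
            ≤ Real.exp l * ∑ x : Fin d → Bool, Real.exp (l * dd (sec B b) x) := by
          rw [Finset.mul_sum]
          refine Finset.sum_le_sum fun x _ => ?_
          rw [← Real.exp_add]
          apply Real.exp_le_exp.mpr
          have h6 : (dd B (Fin.cons b' x) : ℝ) ≤ 1 + dd (sec B b) x := by
            exact_mod_cast hother b' b x hne
          nlinarith
        calc _ ≤ (Real.exp l * ∑ x : Fin d → Bool, Real.exp (l * dd (sec B b) x))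
              * ((sec B b).card : ℝ) := mul_le_mul_of_nonneg_right h5 ha.le
          _ = Real.exp l * ((∑ x : Fin d → Bool, Real.exp (l * dd (sec B b) x))
              * ((sec B b).card : ℝ)) := by ring
          _ ≤ _ := mul_le_mul_of_nonneg_left hT (Real.exp_pos l).le
      · rcases (sec B b').eq_empty_or_nonempty with he | hne'
        · rw [he]; simpa using hK0
        · have hT' := ih (sec B b') hne'
          refine le_trans (mul_le_mul_of_nonneg_right ?_ (by positivity)) hT'
          refine Finset.sum_le_sum fun x _ => Real.exp_le_exp.mpr ?_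
          apply mul_le_mul_of_nonneg_left _ hl
          exact_mod_cast hsame b' x hne'
    rw [pow_succ, ← hK, mul_comm K]
    rcases le_total (sec B true).card (sec B false).card with h | h
    · exact main false true (by simp) h
    · have := main true false (by simp) h
      rw [add_comm (∑ x : Fin d → Bool, Real.exp (l * dd B (Fin.cons false x))),
        add_comm ((sec B false).card : ℝ)]
      exact this

/-- a family of 0-1 vectors of length `d` with all distances below `(1 - τ) d` is small -/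
lemma small_diameter {d : ℕ} {τ : ℝ} (hτ : 0 ≤ τ) (hτ1 : τ ≤ 1) (B : Finset (Fin d → Bool))
    (hB : ∀ x ∈ B, ∀ y ∈ B, x ≠ y → (hammingDist x y : ℝ) ≤ (1 - τ) * d) :
    (B.card : ℝ) ≤ 2 ^ d * Real.exp (-(τ ^ 2 * d / 2)) := by
  classical
  rcases B.eq_empty_or_nonempty with he | hne
  · rw [he]; simp; positivity
  have hl : 0 ≤ 2 * τ := by linarith
  have h1 := cube_blowup hl d B hne
  set N : (Fin d → Bool) → (Fin d → Bool) := fun x i => !(x i) with hN
  have hNinj : Function.Injective N := by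
    intro x y h
    funext i
    have := congrFun h i
    simpa [hN] using this
  have hcompl : ∀ x y : Fin d → Bool, hammingDist (N x) y + hammingDist x y = d := by
    intro x y
    unfold hammingDist
    rw [← card_union_of_disjoint]
    · have : (univ.filter (fun i => N x i ≠ y i)) ∪ (univ.filter (fun i => x i ≠ y i)) = univ := by
        ext i
        simp only [mem_union, mem_filter, mem_univ, true_and, iff_true, hN]
        cases x i <;> cases y i <;> simp
      rw [this]; simp
    · rw [disjoint_filter]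
      intro i _ h1 h2
      simp only [hN] at h1
      revert h1 h2
      cases x i <;> cases y i <;> simp
  have hfar : ∀ x ∈ B, τ * d ≤ (dd B (N x) : ℝ) := by
    intro x hx
    obtain ⟨y, hy, hyd⟩ := exists_dd hne (N x)
    rw [← hyd]
    have h2 := hcompl x y
    have h3 : (hammingDist (N x) y : ℝ) + hammingDist x y = d := by exact_mod_cast h2
    by_cases hxy : x = y
    · rw [hxy, hammingDist_self] at h3
      rw [hxy]
      have : (0 : ℝ) ≤ d := by positivity
      push_cast at h3
      nlinarith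
    · have := hB x hx y hy hxy
      linarith
  have h2 : (B.card : ℝ) * Real.exp (2 * τ * (τ * d)) ≤ ∑ x, Real.exp (2 * τ * dd B x) := by
    calc (B.card : ℝ) * Real.exp (2 * τ * (τ * d))
        = ∑ _x ∈ B, Real.exp (2 * τ * (τ * d)) := by rw [sum_const, nsmul_eq_mul]
      _ ≤ ∑ x ∈ B, Real.exp (2 * τ * dd B (N x)) := by
          refine Finset.sum_le_sum fun x hx => Real.exp_le_exp.mpr ?_
          exact mul_le_mul_of_nonneg_left (hfar x hx) hl
      _ = ∑ z ∈ B.image N, Real.exp (2 * τ * dd B z) := by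
          rw [Finset.sum_image]
          intro x _ y _ h; exact hNinj h
      _ ≤ _ := by
          apply Finset.sum_le_sum_of_subset_of_nonneg (subset_univ _)
          intro i _ _; positivity
  have h3 : (B.card : ℝ) ^ 2 * Real.exp (2 * τ * (τ * d))
      ≤ (4 * Real.exp ((2 * τ) ^ 2 / 4)) ^ d := by
    calc (B.card : ℝ) ^ 2 * Real.exp (2 * τ * (τ * d))
        = ((B.card : ℝ) * Real.exp (2 * τ * (τ * d))) * B.card := by ring
      _ ≤ (∑ x, Real.exp (2 * τ * dd B x)) * B.card :=
          mul_le_mul_of_nonneg_right h2 (by positivity)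
      _ ≤ _ := h1
  have h4 : (4 * Real.exp ((2 * τ) ^ 2 / 4)) ^ d
      = (2 ^ d * Real.exp (-(τ ^ 2 * d / 2))) ^ 2 * Real.exp (2 * τ * (τ * d)) := by
    have h5 : ((4 : ℝ)) ^ d = (2 ^ d) ^ 2 := by
      rw [← pow_mul, mul_comm, pow_mul]; norm_num
    have h6 : Real.exp ((2 * τ) ^ 2 / 4) ^ d = Real.exp (τ ^ 2 * d) := by
      rw [← Real.exp_nat_mul]; congr 1; ring
    have h7 : Real.exp (-(τ ^ 2 * d / 2)) ^ 2 = Real.exp (-(τ ^ 2 * d)) := by
      rw [← Real.exp_nat_mul]; congr 1; push_cast; ring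
    rw [mul_pow (4 : ℝ) _ d, h5, h6, mul_pow ((2 : ℝ) ^ d) _ 2, h7, mul_assoc, ← Real.exp_add]
    congr 2
    ring
  rw [h4] at h3
  have h5 : (B.card : ℝ) ^ 2 ≤ (2 ^ d * Real.exp (-(τ ^ 2 * d / 2))) ^ 2 :=
    le_of_mul_le_mul_right h3 (Real.exp_pos _)
  exact abs_le_of_sq_le_sq' h5 (by positivity) |>.2

/-! ### Bounds for `f` -/

lemma bddAbove_f {n m : ℕ} {c ε : ℝ} (hn : 1 ≤ n) (hc : c < 1) :
    BddAbove {k | ∀ A : Fin m → Finset (Fin n), Dense n m c A →
      ∃ I, EpsInt n m ε A I ∧ I.card = k} := by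
  refine ⟨m, fun k hk => ?_⟩
  have hn0 : (0 : ℝ) < n := by exact_mod_cast hn
  obtain ⟨I, _, hI⟩ := hk (fun _ => univ) (fun _ => by simp; nlinarith)
  rw [← hI]
  exact (card_le_univ I).trans (by simp)

lemma le_f {n m : ℕ} {c ε : ℝ} (hn : 1 ≤ n) (hc : c < 1) {v : ℝ}
    (h : ∀ A : Fin m → Finset (Fin n), Dense n m c A → ∃ I, EpsInt n m ε A I ∧ v ≤ (I.card : ℝ)) :
    v ≤ (f n m c ε : ℝ) := by
  have hmem : ⌈v⌉₊ ∈ {k | ∀ A : Fin m → Finset (Fin n), Dense n m c A →
      ∃ I, EpsInt n m ε A I ∧ I.card = k} := by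
    intro A hA
    obtain ⟨I, hI, hv⟩ := h A hA
    have h1 : ⌈v⌉₊ ≤ I.card := Nat.ceil_le.mpr hv
    obtain ⟨J, hJ, hJc⟩ := Finset.exists_subset_card_eq h1
    exact ⟨J, fun i hi j hj => hI i (hJ hi) j (hJ hj), hJc⟩
  have h2 := le_csSup (bddAbove_f hn hc) hmem
  calc v ≤ (⌈v⌉₊ : ℝ) := Nat.le_ceil v
    _ ≤ _ := by exact_mod_cast h2

lemma f_le {n m : ℕ} {c ε : ℝ} (hn : 1 ≤ n) (hc : c < 1) {v : ℝ}
    (A : Fin m → Finset (Fin n)) (hA : Dense n m c A)
    (h : ∀ I, EpsInt n m ε A I → (I.card : ℝ) ≤ v) :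
    (f n m c ε : ℝ) ≤ v := by
  have hne : ({k | ∀ A : Fin m → Finset (Fin n), Dense n m c A →
      ∃ I, EpsInt n m ε A I ∧ I.card = k} : Set ℕ).Nonempty :=
    ⟨0, fun A _ => ⟨∅, by intro i hi; simp at hi, by simp⟩⟩
  have h1 := Nat.sSup_mem hne (bddAbove_f hn hc)
  obtain ⟨I, hI, hIc⟩ := h1 A hA
  have h2 := h I hI
  rw [hIc] at h2
  exact h2

/-- Lower bound by dependent random choice, for every `n`, `m`. -/
theorem lower {n m : ℕ} {c ε : ℝ} (hε : 0 < ε) (hεc : ε < c) (hc : c < 1) (hn : 1 ≤ n)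
    (hm : 1 ≤ m) :
    c / 2 * (m * (min (m : ℝ) (2 ^ n)) ^ (-(Real.log (1 / c) / Real.log (c / ε))))
      ≤ (f n m c ε : ℝ) := by
  classical
  have hc0 : 0 < c := hε.trans hεc
  apply le_f hn hc
  intro A hA
  set N : ℝ := min (m : ℝ) (2 ^ n) with hN
  have hm0 : (0 : ℝ) < m := by exact_mod_cast hm
  have hm1 : (1 : ℝ) ≤ m := by exact_mod_cast hm
  have hN1 : (1 : ℝ) ≤ N := le_min hm1 (one_le_pow₀ (by norm_num))
  have hN0 : (0 : ℝ) < N := by linarith
  have hRN : ((univ.image A).card : ℝ) ≤ N := by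
    apply le_min
    · have h1 : (univ.image A).card ≤ m := card_image_le.trans (by simp)
      exact_mod_cast h1
    · have h1 : (univ.image A).card ≤ 2 ^ n := (card_le_univ _).trans (by simp)
      exact_mod_cast h1
  have hr : 1 < c / ε := by rw [lt_div_iff₀ hε]; linarith
  have hL : 0 < Real.log (c / ε) := Real.log_pos hr
  set t := ⌈Real.log N / Real.log (c / ε)⌉₊ with ht
  obtain ⟨I, hI, hIc⟩ := drc t hc0.le hε.le hεc.le hn A hA
  refine ⟨I, hI, le_trans ?_ hIc⟩
  have ht1 : Real.log N / Real.log (c / ε) ≤ t := Nat.le_ceil _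
  have ht2 : (t : ℝ) ≤ Real.log N / Real.log (c / ε) + 1 := by
    have := Nat.ceil_lt_add_one (a := Real.log N / Real.log (c / ε))
      (div_nonneg (Real.log_nonneg hN1) hL.le)
    exact this.le
  have h1 : N ≤ (c / ε) ^ t := by
    rw [← Real.log_le_log_iff hN0 (by positivity), Real.log_pow]
    rw [div_le_iff₀ hL] at ht1
    exact ht1
  have h2 : N * ε ^ t ≤ c ^ t := by
    rw [div_pow, le_div_iff₀ (by positivity)] at h1
    exact h1
  have h2' : ((univ.image A).card : ℝ) * ε ^ t ≤ c ^ t :=
    le_trans (mul_le_mul_of_nonneg_right hRN (by positivity)) h2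
  have h3 : (m : ℝ) * c ^ t / 2
      ≤ (m : ℝ) * c ^ t - (m : ℝ) * (univ.image A).card / 2 * ε ^ t := by
    nlinarith
  refine le_trans ?_ h3
  have h4 : c * N ^ (-(Real.log (1 / c) / Real.log (c / ε))) ≤ c ^ t := by
    have h5 : c ^ t = Real.exp (t * Real.log c) := by
      rw [← Real.log_pow, Real.exp_log (by positivity)]
    have h6 : c * N ^ (-(Real.log (1 / c) / Real.log (c / ε)))
        = Real.exp ((Real.log N / Real.log (c / ε) + 1) * Real.log c) := by
      rw [Real.rpow_def_of_pos hN0, add_mul, one_mul, Real.exp_add, Real.exp_log hc0, mul_comm]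
      congr 2
      rw [one_div, Real.log_inv]
      ring
    rw [h5, h6]
    apply Real.exp_le_exp.mpr
    have h7 : Real.log c < 0 := Real.log_neg hc0 hc
    nlinarith
  calc c / 2 * (m * N ^ (-(Real.log (1 / c) / Real.log (c / ε))))
      = m / 2 * (c * N ^ (-(Real.log (1 / c) / Real.log (c / ε)))) := by ring
    _ ≤ m / 2 * c ^ t := mul_le_mul_of_nonneg_left h4 (by positivity)
    _ = _ := by ring

/-- the elements of the blocks `(i, b)` with `b ≠ v i` -/
def badSet {n d q : ℕ} (e : Fin d × Bool × Fin q ↪ Fin n) (v : Fin d → Bool) : Finset (Fin n) :=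
  (univ.filter (fun z : Fin d × Bool × Fin q => z.2.1 ≠ v z.1)).map e

lemma card_bad_union {n d q : ℕ} (e : Fin d × Bool × Fin q ↪ Fin n) (v w : Fin d → Bool) :
    (badSet e v ∪ badSet e w).card = q * (d + hammingDist v w) := by
  have h1 : badSet e v ∪ badSet e w
      = (univ.filter (fun z : Fin d × Bool × Fin q => z.2.1 ≠ v z.1 ∨ z.2.1 ≠ w z.1)).map e := by
    unfold badSet
    rw [← Finset.map_union, Finset.filter_or]
  rw [h1, card_map, Finset.card_filter, Fintype.sum_prod_type]
  simp_rw [Fintype.sum_prod_type, Fintype.sum_bool]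
  have h2 : ∀ i : Fin d, ((∑ _x : Fin q, if (true ≠ v i ∨ true ≠ w i) then 1 else 0)
      + ∑ _x : Fin q, if (false ≠ v i ∨ false ≠ w i) then 1 else 0)
      = q * (1 + if v i ≠ w i then 1 else 0) := by
    intro i
    cases v i <;> cases w i <;> simp <;> ring
  rw [Finset.sum_congr rfl fun i _ => h2 i, ← Finset.mul_sum, Finset.sum_add_distrib]
  unfold hammingDist
  rw [Finset.card_filter]
  simp

lemma card_bad {n d q : ℕ} (e : Fin d × Bool × Fin q ↪ Fin n) (v : Fin d → Bool) :
    (badSet e v).card = q * d := by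
  have := card_bad_union e v v
  rw [Finset.union_self, hammingDist_self] at this
  simpa using this

/-- Upper bound from the `d`-dimensional cube. -/
theorem upper_aux {n m d : ℕ} {c ε : ℝ} (hε : 0 < ε) (hε1 : ε ≤ 1) (hc : c ≤ 1 / 2)
    (hn1 : 1 ≤ n) (hm : 1 ≤ m) (hn4 : 4 * (d : ℝ) ≤ ε * n) (hdm : 2 ^ d ≤ 2 * m) :
    (f n m c ε : ℝ) ≤ 3 * m * Real.exp (-(ε ^ 2 * d / 2)) := by
  classical
  have hnpos : (0 : ℝ) < n := by exact_mod_cast hn1
  have hn4' : 4 * (d : ℝ) ≤ n := by nlinarith
  have hnn : 4 * d ≤ n := by exact_mod_cast hn4'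
  set q := (n - 1) / (2 * d) with hq
  have hq1 : 2 * d * q ≤ n - 1 := Nat.mul_div_le _ _
  have hcard : Fintype.card (Fin d × Bool × Fin q) ≤ Fintype.card (Fin n) := by
    simp only [Fintype.card_prod, Fintype.card_fin, Fintype.card_bool]
    calc d * (2 * q) = 2 * d * q := by ring
      _ ≤ n := by omega
  obtain ⟨e⟩ := Function.Embedding.nonempty_of_card_le hcard
  have hDpos : 0 < 2 ^ d := by positivity
  have hcardE : Fintype.card (Fin (2 ^ d)) = Fintype.card (Fin d → Bool) := by simp
  set E : Fin (2 ^ d) ≃ (Fin d → Bool) := Fintype.equivOfCardEq hcardE with hE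
  set v : Fin m → (Fin d → Bool) := fun k => E ⟨k.1 % 2 ^ d, Nat.mod_lt _ hDpos⟩ with hv
  have hq1R : 2 * (d : ℝ) * q + 1 ≤ n := by
    have : 2 * d * q + 1 ≤ n := by omega
    exact_mod_cast this
  refine f_le hn1 (by linarith) (fun k => (badSet e (v k))ᶜ) ?_ ?_
  · intro k
    rw [card_compl, card_bad, Fintype.card_fin]
    have h1 : q * d ≤ n := by
      have h4 := card_le_univ (badSet e (v k))
      rw [card_bad, Fintype.card_fin] at h4
      exact h4
    rw [Nat.cast_sub h1]
    push_cast
    nlinarith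
  · intro I hI
    have hdist : ∀ i ∈ I, ∀ j ∈ I, v i ≠ v j →
        (hammingDist (v i) (v j) : ℝ) ≤ (1 - ε) * d := by
      intro i hi j hj hvij
      have hij : i ≠ j := fun h => hvij (by rw [h])
      have hdpos : 1 ≤ d := by
        by_contra h
        have hd0 : d = 0 := by omega
        subst hd0
        exact hvij (Subsingleton.elim _ _)
      have hq2 : n - 1 < 2 * d * (q + 1) := Nat.lt_mul_div_succ _ (by omega)
      have hqpos : 1 ≤ q := by
        rw [hq, Nat.le_div_iff_mul_le (by omega)]; omega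
      have hqR : (1 : ℝ) ≤ q := by exact_mod_cast hqpos
      have hd0 : (1 : ℝ) ≤ d := by exact_mod_cast hdpos
      have hq2R : (n : ℝ) ≤ 2 * d * (q + 1) := by
        have : n ≤ 2 * d * (q + 1) := by omega
        exact_mod_cast this
      have h1 := hI i hi j hj hij
      have h2 : (badSet e (v i))ᶜ ∩ (badSet e (v j))ᶜ = (badSet e (v i) ∪ badSet e (v j))ᶜ := by
        rw [Finset.compl_union]
      simp only [h2] at h1
      rw [card_compl, card_bad_union, Fintype.card_fin] at h1
      have h3 : q * (d + hammingDist (v i) (v j)) ≤ n := by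
        have h4 := card_le_univ (badSet e (v i) ∪ badSet e (v j))
        rw [card_bad_union, Fintype.card_fin] at h4
        exact h4
      rw [Nat.cast_sub h3] at h1
      push_cast at h1
      have h5 : (q : ℝ) * hammingDist (v i) (v j) < q * ((1 - ε) * d) := by
        nlinarith
      exact (lt_of_mul_lt_mul_left h5 (by linarith)).le
    have h6 := small_diameter hε.le hε1 (I.image v) (by
      intro x hx y hy hxy
      rw [Finset.mem_image] at hx hy
      obtain ⟨i, hi, rfl⟩ := hx
      obtain ⟨j, hj, rfl⟩ := hy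
      exact hdist i hi j hj hxy)
    have hfib : ∀ a ∈ I.image v, (I.filter (fun x => v x = a)).card ≤ (m - 1) / 2 ^ d + 1 := by
      intro a _
      have hinj : Set.InjOn (fun k : Fin m => k.1 / 2 ^ d)
          (I.filter (fun x => v x = a) : Finset (Fin m)) := by
        intro x hx y hy hxy
        rw [Finset.mem_coe, mem_filter] at hx hy
        have h1 : v x = v y := hx.2.trans hy.2.symm
        simp only [hv] at h1
        have h2 := E.injective h1
        simp only [Fin.mk.injEq] at h2
        have h3 := Nat.div_add_mod x.1 (2 ^ d)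
        have h4 := Nat.div_add_mod y.1 (2 ^ d)
        have h5 : x.1 / 2 ^ d = y.1 / 2 ^ d := hxy
        apply Fin.ext
        rw [← h3, ← h4, h2, h5]
      have h1 := Finset.card_le_card_of_injOn (s := I.filter (fun x => v x = a))
        (t := Finset.range ((m - 1) / 2 ^ d + 1)) (fun k : Fin m => k.1 / 2 ^ d)
        (by
          intro x _
          simp only [coe_range, Set.mem_Iio]
          have : x.1 ≤ m - 1 := by omega
          have := Nat.div_le_div_right (c := 2 ^ d) this
          omega) hinj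
      simpa using h1
    have h7 := Finset.card_le_mul_card_image I _ hfib
    have h8 : (I.card : ℝ) ≤ (((m - 1) / 2 ^ d + 1 : ℕ) : ℝ) * ((I.image v).card : ℝ) := by
      exact_mod_cast h7
    have h9 : (((m - 1) / 2 ^ d + 1 : ℕ) : ℝ) * 2 ^ d ≤ 3 * m := by
      have h10 : ((m - 1) / 2 ^ d + 1) * 2 ^ d ≤ 3 * m := by
        rw [add_mul, one_mul]
        have := Nat.div_mul_le_self (m - 1) (2 ^ d)
        omega
      exact_mod_cast h10
    calc (I.card : ℝ) ≤ (((m - 1) / 2 ^ d + 1 : ℕ) : ℝ) * ((I.image v).card : ℝ) := h8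
      _ ≤ (((m - 1) / 2 ^ d + 1 : ℕ) : ℝ) * (2 ^ d * Real.exp (-(ε ^ 2 * d / 2))) :=
          mul_le_mul_of_nonneg_left h6 (by positivity)
      _ = ((((m - 1) / 2 ^ d + 1 : ℕ) : ℝ) * 2 ^ d) * Real.exp (-(ε ^ 2 * d / 2)) := by ring
      _ ≤ _ := mul_le_mul_of_nonneg_right h9 (Real.exp_pos _).le

/-- Upper bound for all `n`, `m`. -/
theorem upper {n m : ℕ} {c ε : ℝ} (hε : 0 < ε) (hε1 : ε ≤ 1 / 2) (hc : c ≤ 1 / 2) (hn : 1 ≤ n)
    (hm : 1 ≤ m) :
    (f n m c ε : ℝ)
      ≤ 4 * (m * (min (m : ℝ) (2 ^ (ε * n / 4))) ^ (-(ε ^ 2 / (2 * Real.log 2)))) := by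
  have hm0 : (0 : ℝ) < m := by exact_mod_cast hm
  have hm1 : (1 : ℝ) ≤ m := by exact_mod_cast hm
  have hn0 : (0 : ℝ) < n := by exact_mod_cast hn
  have hlog2 : 0 < Real.log 2 := Real.log_pos (by norm_num)
  set N : ℝ := min (m : ℝ) (2 ^ (ε * n / 4)) with hN
  have hN0 : 0 < N := lt_min hm0 (by positivity)
  set d := min (Nat.clog 2 m) ⌊ε * n / 4⌋₊ with hd
  have h4 : 4 * (d : ℝ) ≤ ε * n := by
    have h1 : (d : ℝ) ≤ (⌊ε * n / 4⌋₊ : ℝ) := by exact_mod_cast min_le_right _ _
    have h2 := Nat.floor_le (a := ε * n / 4) (by positivity)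
    linarith
  have hdm : 2 ^ d ≤ 2 * m := by
    have h1 : 2 ^ d ≤ 2 ^ Nat.clog 2 m := Nat.pow_le_pow_right (by norm_num) (min_le_left _ _)
    refine h1.trans ?_
    rcases Nat.lt_or_ge m 2 with h | h
    · have : m = 1 := by omega
      subst this; simp
    · have h2 := Nat.pow_pred_clog_lt_self (b := 2) (by norm_num) (x := m) (by omega)
      have h3 : 1 ≤ Nat.clog 2 m := Nat.clog_pos (by norm_num) h
      have h5 : 2 ^ Nat.clog 2 m = 2 * 2 ^ (Nat.clog 2 m).pred := by
        rw [← pow_succ']; congr 1; exact (Nat.succ_pred_eq_of_pos h3).symm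
      omega
  have h1 := upper_aux (c := c) hε (by linarith) hc hn hm h4 hdm
  refine h1.trans ?_
  -- `log₂ N ≤ d + 1`
  have h2 : Real.log N / Real.log 2 ≤ d + 1 := by
    rw [div_le_iff₀ hlog2]
    rcases min_cases (Nat.clog 2 m) ⌊ε * n / 4⌋₊ with ⟨h, _⟩ | ⟨h, _⟩
    · have h3 : Real.log N ≤ Real.log m := Real.log_le_log hN0 (min_le_left _ _)
      have h5 : Real.log m ≤ (Nat.clog 2 m) * Real.log 2 := by
        rw [← Real.log_pow]
        apply Real.log_le_log hm0
        exact_mod_cast Nat.le_pow_clog (by norm_num) m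
      rw [hd, h]
      nlinarith
    · have h3 : Real.log N ≤ Real.log (2 ^ (ε * n / 4)) := Real.log_le_log hN0 (min_le_right _ _)
      rw [Real.log_rpow (by norm_num)] at h3
      have h5 := (Nat.lt_floor_add_one (ε * n / 4)).le
      rw [hd, h]
      nlinarith
  have h3 : N ^ (-(ε ^ 2 / (2 * Real.log 2)))
      = Real.exp (-(ε ^ 2 / 2 * (Real.log N / Real.log 2))) := by
    rw [Real.rpow_def_of_pos hN0]
    congr 1
    field_simp
  rw [h3]
  have h5 : Real.exp (-(ε ^ 2 * d / 2))
      ≤ Real.exp (1 / 8) * Real.exp (-(ε ^ 2 / 2 * (Real.log N / Real.log 2))) := by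
    rw [← Real.exp_add]
    apply Real.exp_le_exp.mpr
    have h6 : ε ^ 2 ≤ 1 / 4 := by nlinarith
    have h7 : ε ^ 2 / 2 * (Real.log N / Real.log 2) ≤ ε ^ 2 / 2 * (d + 1) :=
      mul_le_mul_of_nonneg_left h2 (by positivity)
    nlinarith
  have h6 : Real.exp (1 / 8) ≤ 4 / 3 := by
    have h7 : Real.exp (1 / 8) ^ 8 ≤ (4 / 3 : ℝ) ^ 8 := by
      rw [← Real.exp_nat_mul]
      have h8 := Real.exp_one_lt_d9
      norm_num
      linarith
    exact le_of_pow_le_pow_left₀ (by norm_num) (by norm_num) h7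
  have h7 : 0 < Real.exp (-(ε ^ 2 / 2 * (Real.log N / Real.log 2))) := Real.exp_pos _
  calc 3 * m * Real.exp (-(ε ^ 2 * d / 2))
      ≤ 3 * m * (Real.exp (1 / 8) * Real.exp (-(ε ^ 2 / 2 * (Real.log N / Real.log 2)))) :=
        mul_le_mul_of_nonneg_left h5 (by positivity)
    _ ≤ 3 * m * (4 / 3 * Real.exp (-(ε ^ 2 / 2 * (Real.log N / Real.log 2)))) := by
        apply mul_le_mul_of_nonneg_left _ (by positivity)
        exact mul_le_mul_of_nonneg_right h6 h7.le
    _ = _ := by ring

end Pool.Agent.H41.PairInt
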