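import Mathlib

/-!
Definitions for MP_cecf76_co (large pairwise intersecting subfamilies of dense set systems).
The ground set is `Fin n`, a sequence of `m` subsets is a map `Fin m → Finset (Fin n)`.
-/

set_option autoImplicit false

namespace Pool.Agent.H41.PairInt

/-- every member of the sequence has more than `c * n` elements -/
def Dense (n m : ℕ) (c : ℝ) (A : Fin m → Finset (Fin n)) : Prop :=
  ∀ k, c * n < ((A k).card : ℝ)

/-- any two members with distinct indices in `I` have more than `ε * n` common elements -/
def EpsInt (n m : ℕ) (ε : ℝ) (A : Fin m → Finset (Fin n)) (I : Finset (Fin m)) : Prop :=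
  ∀ i ∈ I, ∀ j ∈ I, i ≠ j → ε * n < (((A i) ∩ (A j)).card : ℝ)

/-- `f n m c ε` is the largest integer `k` such that every sequence of `m` subsets of an
`n`-element set, each with more than `c * n` elements, has an `ε`-intersecting index set of
size `k`. -/
noncomputable def f (n m : ℕ) (c ε : ℝ) : ℕ :=
  sSup {k | ∀ A : Fin m → Finset (Fin n), Dense n m c A → ∃ I, EpsInt n m ε A I ∧ I.card = k}

end Pool.Agent.H41.PairInt
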