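import Pool.Agent.H41.StabCut

/-!
Upper bounds for MP_b5bf4a_co: peeling cells off two separated sets by common lines.
-/

set_option autoImplicit false

namespace Pool.Agent.H41.Stab

open Finset

/-- `∑ s (s - 1)` over the cell sizes `s` -/
def Sg (l : List ℕ) : ℕ := (l.map (fun s => s * (s - 1))).sum

@[simp] lemma Sg_nil : Sg [] = 0 := rfl

@[simp] lemma Sg_cons (s : ℕ) (l : List ℕ) : Sg (s :: l) = s * (s - 1) + Sg l := by
  simp [Sg]

lemma Sg_append (l l' : List ℕ) : Sg (l ++ l') = Sg l + Sg l' := by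
  simp [Sg]

variable {n : ℕ} {p : Fin n → ℝ × ℝ} {G : SimpleGraph (Fin n)} {K : ℕ}

lemma cc_split (G : SimpleGraph (Fin n)) (U S : Finset (Fin n)) :
    cc G U U = cc G (U ∩ S) (U ∩ S) + cc G (U \ S) (U \ S) + 2 * cc G (U ∩ S) (U \ S) := by
  have hd : Disjoint (U ∩ S) (U \ S) := by
    rw [Finset.disjoint_left]
    intro v hv hv'
    exact (Finset.mem_sdiff.1 hv').2 (Finset.mem_inter.1 hv).2
  have hu : (U ∩ S) ∪ (U \ S) = U := by
    ext v
    simp only [Finset.mem_union, Finset.mem_inter, Finset.mem_sdiff]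
    tauto
  have h : cc G U U = cc G ((U ∩ S) ∪ (U \ S)) ((U ∩ S) ∪ (U \ S)) := by rw [hu]
  rw [h, cc_union_left G _ hd, cc_union_right G _ hd, cc_union_right G _ hd,
    cc_symm G (U \ S) (U ∩ S)]
  ring

/-- the two parts of a cut, inside two disjoint sets -/
lemma cc_two {C D S : Finset (Fin n)} (hCD : Disjoint C D) (hS : cc G S Sᶜ ≤ K) :
    cc G (C ∩ S) (C \ S) + cc G (D ∩ S) (D \ S) ≤ K := by
  classical
  refine le_trans ?_ hS
  have hd : Disjoint (C ∩ S) (D ∩ S) :=
    Finset.disjoint_of_subset_left Finset.inter_subset_left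
      (Finset.disjoint_of_subset_right Finset.inter_subset_left hCD)
  have hsub : ∀ U : Finset (Fin n), U \ S ⊆ Sᶜ := by
    intro U v hv
    rw [Finset.mem_compl]
    exact (Finset.mem_sdiff.1 hv).2
  calc cc G (C ∩ S) (C \ S) + cc G (D ∩ S) (D \ S)
      ≤ cc G (C ∩ S) Sᶜ + cc G (D ∩ S) Sᶜ := by
        apply Nat.add_le_add
        · exact cc_mono G (Finset.Subset.refl _) (hsub C)
        · exact cc_mono G (Finset.Subset.refl _) (hsub D)
    _ = cc G ((C ∩ S) ∪ (D ∩ S)) Sᶜ := (cc_union_left G _ hd).symm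
    _ ≤ cc G S Sᶜ := by
        apply cc_mono G _ (Finset.Subset.refl _)
        intro v hv
        simp only [Finset.mem_union, Finset.mem_inter] at hv
        tauto

/-- if every line which cuts `i` points from `C` cuts at least `K - μ` edges inside `C`, then `D`
can be peeled with at most `μ` edges per cell -/
theorem peelD (hp : GenPos p) (hcut : ∀ S, LineCut p S → cc G S Sᶜ ≤ K)
    {S₀ : Finset (Fin n)} (hS₀ : LineCut p S₀) {C : Finset (Fin n)} (hC : C ⊆ S₀) {i : ℕ}
    (hi : 1 ≤ i) (hi' : i ≤ C.card) {μ : ℕ}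
    (hbad : ∀ S, LineCut p S → (C ∩ S).card = i → K ≤ cc G (C ∩ S) (C \ S) + μ) :
    ∀ (l : List ℕ) (D : Finset (Fin n)), l ≠ [] → (∀ s ∈ l, 1 ≤ s) → l.sum = D.card →
      Disjoint D S₀ → cc G D D ≤ 2 * (l.length - 1) * μ + Sg l := by
  intro l
  induction l with
  | nil => intro D h; exact absurd rfl h
  | cons s l ih =>
    intro D _ hpos hsum hD
    by_cases hl : l = []
    · subst hl
      have h1 := cc_self_le G D
      simp only [List.sum_cons, List.sum_nil, add_zero] at hsum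
      simp only [Sg_cons, Sg_nil, List.length_singleton, Nat.sub_self, mul_zero, zero_mul,
        zero_add, add_zero]
      rw [hsum]
      exact h1
    · have hspos := hpos s (by simp)
      rw [List.sum_cons] at hsum
      obtain ⟨S, hS, hCS, hDS⟩ := hamSandwich hp hS₀ hC hD hi hi' hspos (by omega : s ≤ D.card)
      have hCD : Disjoint C D := (Finset.disjoint_of_subset_right hC hD).symm
      have h1 := cc_two (G := G) (K := K) hCD (hcut S hS)
      have h2 := hbad S hS hCS
      have h3 : cc G (D ∩ S) (D \ S) ≤ μ := by omega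
      have h4 := cc_split G D S
      have h5 : (D \ S).card + (D ∩ S).card = D.card := Finset.card_sdiff_add_card_inter D S
      have h6 := ih (D \ S) hl (fun x hx => hpos x (by simp [hx])) (by omega)
        (Finset.disjoint_of_subset_left Finset.sdiff_subset hD)
      have h7 := cc_self_le G (D ∩ S)
      rw [hDS] at h7
      have h8 : 1 ≤ l.length := by
        rcases l with _ | ⟨x, l⟩
        · exact absurd rfl hl
        · simp
      simp only [Sg_cons, List.length_cons, Nat.add_sub_cancel]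
      have h9 : 2 * l.length * μ = 2 * (l.length - 1) * μ + 2 * μ := by
        obtain ⟨m, hm⟩ : ∃ m, l.length = m + 1 := ⟨l.length - 1, by omega⟩
        rw [hm, Nat.add_sub_cancel]
        ring
      rw [h4, h9]
      have h10 : 2 * cc G (D ∩ S) (D \ S) ≤ 2 * μ := by omega
      omega

/-- a dense `D` makes all cuts of `C` cheap -/
theorem cheap_cut (hp : GenPos p) (hcut : ∀ S, LineCut p S → cc G S Sᶜ ≤ K)
    {S₀ : Finset (Fin n)} (hS₀ : LineCut p S₀) {D : Finset (Fin n)} (hD : Disjoint D S₀)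
    {l' : List ℕ} (hl' : l' ≠ []) (hpos' : ∀ s ∈ l', 1 ≤ s) (hsum' : l'.sum = D.card) {μ : ℕ}
    (hdense : 2 * (l'.length - 1) * μ + Sg l' < cc G D D)
    {C : Finset (Fin n)} (hC : C ⊆ S₀) {i : ℕ} (hi : 1 ≤ i) (hi' : i ≤ C.card) :
    ∃ S, LineCut p S ∧ (C ∩ S).card = i ∧ cc G (C ∩ S) (C \ S) + μ < K := by
  by_contra hcon
  push Not at hcon
  have := peelD hp hcut hS₀ hC hi hi' (μ := μ) hcon l' D hl' hpos' hsum' hD
  omega

theorem dense_sparse (hp : GenPos p) (hcut : ∀ S, LineCut p S → cc G S Sᶜ ≤ K)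
    {S₀ : Finset (Fin n)} (hS₀ : LineCut p S₀) {D : Finset (Fin n)} (hD : Disjoint D S₀)
    {l' : List ℕ} (hl' : l' ≠ []) (hpos' : ∀ s ∈ l', 1 ≤ s) (hsum' : l'.sum = D.card) {μ : ℕ}
    (hdense : 2 * (l'.length - 1) * μ + Sg l' < cc G D D) :
    ∀ (l : List ℕ) (C : Finset (Fin n)), l ≠ [] → (∀ s ∈ l, 1 ≤ s) → l.sum = C.card →
      C ⊆ S₀ → cc G C C ≤ 2 * (l.length - 1) * (K - (μ + 1)) + Sg l := by
  intro l
  induction l with
  | nil => intro C h; exact absurd rfl h
  | cons s l ih =>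
    intro C _ hpos hsum hC
    by_cases hl : l = []
    · subst hl
      have h1 := cc_self_le G C
      simp only [List.sum_cons, List.sum_nil, add_zero] at hsum
      simp only [Sg_cons, Sg_nil, List.length_singleton, Nat.sub_self, mul_zero, zero_mul,
        zero_add, add_zero]
      rw [hsum]
      exact h1
    · have hspos := hpos s (by simp)
      rw [List.sum_cons] at hsum
      obtain ⟨S, hS, hCS, hlt⟩ := cheap_cut hp hcut hS₀ hD hl' hpos' hsum' hdense hC hspos
        (by omega : s ≤ C.card)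
      have h4 := cc_split G C S
      have h5 : (C \ S).card + (C ∩ S).card = C.card := Finset.card_sdiff_add_card_inter C S
      have h6 := ih (C \ S) hl (fun x hx => hpos x (by simp [hx])) (by omega)
        (Finset.Subset.trans Finset.sdiff_subset hC)
      have h7 := cc_self_le G (C ∩ S)
      rw [hCS] at h7
      have h8 : 1 ≤ l.length := by
        rcases l with _ | ⟨x, l⟩
        · exact absurd rfl hl
        · simp
      simp only [Sg_cons, List.length_cons, Nat.add_sub_cancel]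
      have h9 : 2 * l.length * (K - (μ + 1))
          = 2 * (l.length - 1) * (K - (μ + 1)) + 2 * (K - (μ + 1)) := by
        obtain ⟨m, hm⟩ : ∃ m, l.length = m + 1 := ⟨l.length - 1, by omega⟩
        rw [hm, Nat.add_sub_cancel]
        ring
      rw [h4, h9]
      have h10 : 2 * cc G (C ∩ S) (C \ S) ≤ 2 * (K - (μ + 1)) := by omega
      omega

lemma list_pos_sum {l : List ℕ} (hl : l ≠ []) (hpos : ∀ s ∈ l, 1 ≤ s) : 1 ≤ l.sum := by
  rcases l with _ | ⟨x, l⟩
  · exact absurd rfl hl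
  · rw [List.sum_cons]
    have := hpos x (by simp)
    omega

/-- the decoupling lemma -/
theorem decouple (hp : GenPos p) (hcut : ∀ S, LineCut p S → cc G S Sᶜ ≤ K)
    {S₀ : Finset (Fin n)} (hS₀ : LineCut p S₀) {C D : Finset (Fin n)} (hC : C ⊆ S₀)
    (hD : Disjoint D S₀) {l l' : List ℕ} (hl : l ≠ []) (hpos : ∀ s ∈ l, 1 ≤ s)
    (hsum : l.sum = C.card) (hl' : l' ≠ []) (hpos' : ∀ s ∈ l', 1 ≤ s) (hsum' : l'.sum = D.card) :
    ∃ t ≤ K, cc G D D ≤ 2 * (l'.length - 1) * t + Sg l' ∧
      cc G C C ≤ 2 * (l.length - 1) * (K - t) + Sg l := by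
  classical
  have hC1 : 1 ≤ C.card := hsum ▸ list_pos_sum hl hpos
  have hD1 : 1 ≤ D.card := hsum' ▸ list_pos_sum hl' hpos'
  have hK : cc G D D ≤ 2 * (l'.length - 1) * K + Sg l' :=
    peelD hp hcut hS₀ hC le_rfl hC1 (fun S _ _ => by omega) l' D hl' hpos' hsum' hD
  have hex : ∃ t, cc G D D ≤ 2 * (l'.length - 1) * t + Sg l' := ⟨K, hK⟩
  refine ⟨Nat.find hex, Nat.find_min' hex hK, Nat.find_spec hex, ?_⟩
  rcases Nat.eq_zero_or_pos (Nat.find hex) with h0 | h0
  · rw [h0, Nat.sub_zero]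
    refine peelD hp hcut hS₀.compl (C := D) ?_ le_rfl hD1 (fun S _ _ => by omega) l C hl hpos hsum ?_
    · intro v hv
      rw [Finset.mem_compl]
      exact Finset.disjoint_left.1 hD hv
    · rw [Finset.disjoint_left]
      intro v hv hv'
      rw [Finset.mem_compl] at hv'
      exact hv' (hC hv)
  · obtain ⟨μ, hμ⟩ : ∃ μ, Nat.find hex = μ + 1 := ⟨Nat.find hex - 1, by omega⟩
    rw [hμ]
    have hlt : ¬ (cc G D D ≤ 2 * (l'.length - 1) * μ + Sg l') :=
      Nat.find_min hex (by omega)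
    exact dense_sparse hp hcut hS₀ hD hl' hpos' hsum' (not_le.1 hlt) l C hl hpos hsum hC

/-- upper bound, `2m` cells -/
theorem upper_even (hp : GenPos p) (hcut : ∀ S, LineCut p S → cc G S Sᶜ ≤ K)
    {l l' : List ℕ} (hl : l ≠ []) (hlen : l.length = l'.length) (hpos : ∀ s ∈ l, 1 ≤ s)
    (hpos' : ∀ s ∈ l', 1 ≤ s) (hsum : l.sum + l'.sum = n) :
    2 * G.edgeSet.ncard ≤ 2 * l.length * K + Sg l + Sg l' := by
  classical
  have hl' : l' ≠ [] := by
    rintro rfl
    rw [List.length_nil] at hlen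
    exact hl (List.length_eq_zero_iff.1 hlen)
  obtain ⟨P, hP, _⟩ := exists_chain hp.1
  obtain ⟨hP1, hP2⟩ := hP l.sum (by omega)
  have hcompl : (P l.sum)ᶜ.card = l'.sum := by
    rw [Finset.card_compl, Fintype.card_fin, hP2]
    omega
  obtain ⟨t, ht, h1, h2⟩ := decouple hp hcut hP1 (Finset.Subset.refl _)
    (disjoint_compl_left) hl hpos hP2.symm hl' hpos' hcompl.symm
  have h3 := hcut _ hP1
  have h4 := cc_split G Finset.univ (P l.sum)
  rw [Finset.univ_inter, ← Finset.compl_eq_univ_sdiff] at h4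
  rw [← cc_univ, h4]
  rw [← hlen] at h1
  obtain ⟨m, hm⟩ : ∃ m, l.length = m + 1 := by
    refine ⟨l.length - 1, ?_⟩
    have : l.length ≠ 0 := fun h => hl (List.length_eq_zero_iff.1 h)
    omega
  rw [hm] at h1 h2 ⊢
  rw [Nat.add_sub_cancel] at h1 h2
  obtain ⟨t', rfl⟩ : ∃ t', K = t + t' := ⟨K - t, by omega⟩
  rw [Nat.add_sub_cancel_left] at h2
  nlinarith

end Pool.Agent.H41.Stab
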