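import Pool.Agent.H41.StabGeom

/-!
Line cuts of a planar point set, for MP_b5bf4a_co.
-/

set_option autoImplicit false

namespace Pool.Agent.H41.Stab

open Finset

/-- `S` is the set of points strictly on the positive side of a line missing all points -/
def LineCut {n : ℕ} (p : Fin n → ℝ × ℝ) (S : Finset (Fin n)) : Prop :=
  ∃ a b c : ℝ, (a ≠ 0 ∨ b ≠ 0) ∧
    ∀ v, (v ∈ S → c < a * (p v).1 + b * (p v).2) ∧ (v ∉ S → a * (p v).1 + b * (p v).2 < c)

lemma LineCut.compl {n : ℕ} {p : Fin n → ℝ × ℝ} {S : Finset (Fin n)} (h : LineCut p S) :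
    LineCut p Sᶜ := by
  obtain ⟨a, b, c, hab, h⟩ := h
  refine ⟨-a, -b, -c, by simpa using hab, ?_⟩
  intro v
  rw [Finset.mem_compl]
  constructor
  · intro hv
    have := (h v).2 hv
    linarith
  · intro hv
    have := (h v).1 (not_not.1 hv)
    linarith

lemma collinear_of_det {u v w : ℝ × ℝ} (huv : u ≠ v)
    (h : (v.1 - u.1) * (w.2 - u.2) - (w.1 - u.1) * (v.2 - u.2) = 0) :
    Collinear ℝ {u, v, w} := by
  rw [collinear_iff_of_mem (p₀ := u) (by simp)]
  refine ⟨v - u, ?_⟩
  intro z hz
  simp only [Set.mem_insert_iff, Set.mem_singleton_iff] at hz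
  rcases hz with rfl | rfl | rfl
  · exact ⟨0, by simp⟩
  · exact ⟨1, by simp⟩
  · by_cases h1 : v.1 - u.1 = 0
    · have h2 : v.2 - u.2 ≠ 0 := by
        intro h2
        apply huv
        ext
        · linarith
        · linarith
      have h3 : z.1 - u.1 = 0 := by
        rw [h1] at h
        have : (z.1 - u.1) * (v.2 - u.2) = 0 := by linarith
        rcases mul_eq_zero.1 this with h | h
        · exact h
        · exact absurd h h2
      refine ⟨(z.2 - u.2) / (v.2 - u.2), ?_⟩
      ext
      · simp only [vadd_eq_add, Prod.fst_add, Prod.smul_fst, Prod.fst_sub, smul_eq_mul, h1]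
        linarith
      · simp only [vadd_eq_add, Prod.snd_add, Prod.smul_snd, Prod.snd_sub, smul_eq_mul]
        rw [div_mul_cancel₀ _ h2]
        ring
    · refine ⟨(z.1 - u.1) / (v.1 - u.1), ?_⟩
      ext
      · simp only [vadd_eq_add, Prod.fst_add, Prod.smul_fst, Prod.fst_sub, smul_eq_mul]
        rw [div_mul_cancel₀ _ h1]
        ring
      · simp only [vadd_eq_add, Prod.snd_add, Prod.smul_snd, Prod.snd_sub, smul_eq_mul]
        field_simp
        linarith

lemma GenPos.det_ne {n : ℕ} {p : Fin n → ℝ × ℝ} (hp : GenPos p) {u v w : Fin n}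
    (huv : u ≠ v) (hvw : v ≠ w) (huw : u ≠ w) :
    ((p v).1 - (p u).1) * ((p w).2 - (p u).2) - ((p w).1 - (p u).1) * ((p v).2 - (p u).2) ≠ 0 := by
  intro h
  exact hp.2 u v w huv hvw huw (collinear_of_det (fun h => huv (hp.1 h)) h)

/-- the ham-sandwich lemma for separated sets -/
theorem hamSandwich {n : ℕ} {p : Fin n → ℝ × ℝ} (hp : GenPos p) {S₀ A B : Finset (Fin n)}
    (hS : LineCut p S₀) (hA : A ⊆ S₀) (hB : Disjoint B S₀) {i j : ℕ} (hi : 1 ≤ i)
    (hi' : i ≤ A.card) (hj : 1 ≤ j) (hj' : j ≤ B.card) :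
    ∃ S, LineCut p S ∧ (A ∩ S).card = i ∧ (B ∩ S).card = j := by
  obtain ⟨α, β, γ, hab, h⟩ := hS
  have hAX : ∀ v ∈ A, γ - (α * (p v).1 + β * (p v).2) < 0 := by
    intro v hv
    have := (h v).1 (hA hv)
    linarith
  have hBX : ∀ v ∈ B, 0 < γ - (α * (p v).1 + β * (p v).2) := by
    intro v hv
    have := (h v).2 (Finset.disjoint_left.1 hB hv)
    linarith
  have hpos : 0 < α ^ 2 + β ^ 2 := by
    rcases hab with h | h
    · have : 0 < α ^ 2 := by positivity
      nlinarith [sq_nonneg β]
    · have : 0 < β ^ 2 := by positivity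
      nlinarith [sq_nonneg α]
  obtain ⟨s, t, h1, h2, h3⟩ := hs_abs (fun v => γ - (α * (p v).1 + β * (p v).2))
    (fun v => -β * (p v).1 + α * (p v).2) A B Finset.univ hAX hBX (by
      intro u _ v _ w _ huv hvw huw hdet
      have hne := hp.det_ne huv hvw huw
      apply hne
      have : (α ^ 2 + β ^ 2) * (((p v).1 - (p u).1) * ((p w).2 - (p u).2)
          - ((p w).1 - (p u).1) * ((p v).2 - (p u).2)) = 0 := by
        linear_combination -hdet
      rcases mul_eq_zero.1 this with h | h
      · linarith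
      · exact h) i j hi hi' hj hj'
  refine ⟨Finset.univ.filter (fun v => s * (γ - (α * (p v).1 + β * (p v).2)) + t
    < -β * (p v).1 + α * (p v).2), ⟨-β + s * α, α + s * β, s * γ + t, ?_, ?_⟩, ?_, ?_⟩
  · by_contra hcon
    push Not at hcon
    obtain ⟨c1, c2⟩ := hcon
    have e1 : β = s * α := by linarith
    have e2 : α * (1 + s ^ 2) = 0 := by
      rw [e1] at c2
      linarith
    have e3 : α = 0 := by
      rcases mul_eq_zero.1 e2 with h | h
      · exact h
      · nlinarith [sq_nonneg s]
    rw [e3] at e1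
    rw [e3, e1] at hpos
    simp at hpos
  · intro v
    rw [Finset.mem_filter]
    have hne := h1 v (Finset.mem_univ v)
    constructor
    · rintro ⟨_, h⟩
      linarith
    · intro h
      have h4 : ¬ (s * (γ - (α * (p v).1 + β * (p v).2)) + t < -β * (p v).1 + α * (p v).2) :=
        fun h' => h ⟨Finset.mem_univ v, h'⟩
      rcases (not_lt.1 h4).lt_or_eq with h5 | h5
      · linarith
      · exact absurd h5 hne
  · rw [← h2]
    congr 1
    ext v
    simp
  · rw [← h3]
    congr 1
    ext v
    simp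

/-- a generic linear functional -/
lemma exists_generic {n : ℕ} {p : Fin n → ℝ × ℝ} (hp : Function.Injective p) :
    ∃ b : ℝ, Function.Injective (fun v => (p v).1 + b * (p v).2) := by
  classical
  have hfin : (⋃ x : Fin n × Fin n, {b : ℝ | x.1 ≠ x.2 ∧
      (p x.1).1 + b * (p x.1).2 = (p x.2).1 + b * (p x.2).2}).Finite := by
    apply Set.finite_iUnion
    intro x
    apply Set.Subsingleton.finite
    intro b hb b' hb'
    obtain ⟨hne, h1⟩ := hb
    obtain ⟨_, h2⟩ := hb'
    by_contra hbb
    apply hne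
    apply hp
    have h3 : (b - b') * ((p x.1).2 - (p x.2).2) = 0 := by linarith
    have h4 : (p x.1).2 - (p x.2).2 = 0 := by
      rcases mul_eq_zero.1 h3 with h | h
      · exact absurd (by linarith) hbb
      · exact h
    have h5 : (p x.1).2 = (p x.2).2 := by linarith
    rw [h5] at h1
    ext
    · linarith
    · exact h5
  obtain ⟨b, hb⟩ := (Set.infinite_of_finite_compl (s := (⋃ x : Fin n × Fin n, {b : ℝ | x.1 ≠ x.2 ∧
      (p x.1).1 + b * (p x.1).2 = (p x.2).1 + b * (p x.2).2})ᶜ) (by rwa [compl_compl])).nonempty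
  refine ⟨b, ?_⟩
  intro u v huv
  by_contra hne
  apply hb
  rw [Set.mem_iUnion]
  exact ⟨(u, v), hne, huv⟩

/-- thresholds of an injective function -/
lemma exists_threshold {n : ℕ} (h : Fin n → ℝ) (hinj : Function.Injective h) (s : ℕ) (hs : s ≤ n) :
    ∃ c : ℝ, (∀ v, h v ≠ c) ∧ (Finset.univ.filter (fun v => c < h v)).card = s := by
  classical
  obtain ⟨k, rfl⟩ : ∃ k, s = n - k := ⟨n - s, by omega⟩
  induction k with
  | zero =>
    obtain ⟨M, hM⟩ : ∃ M : ℝ, ∀ v, M < h v := by
      by_cases hn : Nonempty (Fin n)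
      · obtain ⟨v₀, _, hv₀⟩ := Finset.exists_min_image Finset.univ h
          (Finset.univ_nonempty)
        exact ⟨h v₀ - 1, fun v => by linarith [hv₀ v (Finset.mem_univ v)]⟩
      · exact ⟨0, fun v => absurd ⟨v⟩ hn⟩
    refine ⟨M, fun v => (hM v).ne', ?_⟩
    rw [Finset.filter_true_of_mem (fun v _ => hM v)]
    simp
  | succ k ih =>
    obtain ⟨c, hc, hcard⟩ := ih (Nat.sub_le _ _)
    by_cases hk : n - k = 0
    · refine ⟨c, hc, ?_⟩
      rw [hcard]; omega
    · obtain ⟨v₀, hv₀, hmin⟩ := Finset.exists_min_image (Finset.univ.filter (fun v => c < h v)) h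
        (Finset.card_pos.1 (by omega))
      obtain ⟨ε, hε, hsm⟩ := exists_small Finset.univ (fun v => h v - h v₀)
      rw [Finset.mem_filter] at hv₀
      refine ⟨h v₀ + ε, ?_, ?_⟩
      · intro v hv
        have := hsm v (Finset.mem_univ v) (by linarith)
        linarith
      · have : Finset.univ.filter (fun v => h v₀ + ε < h v)
            = (Finset.univ.filter (fun v => c < h v)).erase v₀ := by
          ext v
          rw [Finset.mem_erase, Finset.mem_filter, Finset.mem_filter]
          constructor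
          · rintro ⟨_, hv⟩
            refine ⟨?_, Finset.mem_univ v, by linarith [hv₀.2]⟩
            rintro rfl
            linarith
          · rintro ⟨hne, _, hv⟩
            refine ⟨Finset.mem_univ v, ?_⟩
            have h1 := hmin v (by rw [Finset.mem_filter]; exact ⟨Finset.mem_univ v, hv⟩)
            have h2 : h v ≠ h v₀ := fun h' => hne (hinj h')
            have h3 : 0 < h v - h v₀ := by
              rcases h1.lt_or_eq with h4 | h4
              · linarith
              · exact absurd h4.symm h2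
            have := hsm v (Finset.mem_univ v) h3
            linarith
        rw [this, Finset.card_erase_of_mem (by rw [Finset.mem_filter]; exact hv₀), hcard]
        omega

/-- a chain of line cuts by parallel lines -/
theorem exists_chain {n : ℕ} {p : Fin n → ℝ × ℝ} (hp : Function.Injective p) :
    ∃ P : ℕ → Finset (Fin n), (∀ s, s ≤ n → LineCut p (P s) ∧ (P s).card = s) ∧
      ∀ s s', s ≤ s' → s' ≤ n → P s ⊆ P s' := by
  classical
  obtain ⟨b, hb⟩ := exists_generic hp
  have hth := exists_threshold (fun v => (p v).1 + b * (p v).2) hb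
  choose! c hc hcard using hth
  refine ⟨fun s => Finset.univ.filter (fun v => c s < (p v).1 + b * (p v).2), ?_, ?_⟩
  · intro s hs
    refine ⟨⟨1, b, c s, Or.inl one_ne_zero, ?_⟩, hcard s hs⟩
    intro v
    rw [Finset.mem_filter]
    constructor
    · rintro ⟨_, h⟩
      linarith
    · intro h
      have h1 : ¬ (c s < (p v).1 + b * (p v).2) := fun h' => h ⟨Finset.mem_univ v, h'⟩
      rcases (not_lt.1 h1).lt_or_eq with h2 | h2
      · linarith
      · exact absurd h2 (hc s hs v)
  · intro s s' hss hs'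
    show Finset.univ.filter (fun v => c s < (p v).1 + b * (p v).2)
      ⊆ Finset.univ.filter (fun v => c s' < (p v).1 + b * (p v).2)
    rcases le_total (c s) (c s') with h | h
    · have hsub : Finset.univ.filter (fun v => c s' < (p v).1 + b * (p v).2)
          ⊆ Finset.univ.filter (fun v => c s < (p v).1 + b * (p v).2) := by
        intro v hv
        rw [Finset.mem_filter] at hv ⊢
        exact ⟨hv.1, lt_of_le_of_lt h hv.2⟩
      rw [Finset.eq_of_subset_of_card_le hsub (by rw [hcard s (by omega), hcard s' hs']; exact hss)]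
    · intro v hv
      rw [Finset.mem_filter] at hv ⊢
      exact ⟨hv.1, lt_of_le_of_lt h hv.2⟩

/-- number of adjacent ordered pairs in `S × T` -/
noncomputable def cc {n : ℕ} (G : SimpleGraph (Fin n)) (S T : Finset (Fin n)) : ℕ := by
  classical
  exact ((S ×ˢ T).filter (fun x => G.Adj x.1 x.2)).card

lemma cc_symm {n : ℕ} (G : SimpleGraph (Fin n)) (S T : Finset (Fin n)) : cc G S T = cc G T S := by
  classical
  unfold cc
  apply Finset.card_bij (fun x _ => (x.2, x.1))
  · rintro ⟨a, b⟩ h
    simp only [Finset.mem_filter, Finset.mem_product] at h ⊢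
    exact ⟨⟨h.1.2, h.1.1⟩, h.2.symm⟩
  · rintro ⟨a, b⟩ _ ⟨a', b'⟩ _ h
    simp only [Prod.mk.injEq] at h ⊢
    exact ⟨h.2, h.1⟩
  · rintro ⟨a, b⟩ h
    simp only [Finset.mem_filter, Finset.mem_product] at h
    refine ⟨(b, a), ?_, rfl⟩
    simp only [Finset.mem_filter, Finset.mem_product]
    exact ⟨⟨h.1.2, h.1.1⟩, h.2.symm⟩

lemma cc_union_left {n : ℕ} (G : SimpleGraph (Fin n)) {S S' : Finset (Fin n)} (T : Finset (Fin n))
    (h : Disjoint S S') : cc G (S ∪ S') T = cc G S T + cc G S' T := by
  classical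
  unfold cc
  rw [Finset.union_product, Finset.filter_union, Finset.card_union_of_disjoint]
  apply Finset.disjoint_filter_filter
  rw [Finset.disjoint_left] at h ⊢
  rintro ⟨a, b⟩ h1 h2
  rw [Finset.mem_product] at h1 h2
  exact h h1.1 h2.1

lemma cc_union_right {n : ℕ} (G : SimpleGraph (Fin n)) {S S' : Finset (Fin n)} (T : Finset (Fin n))
    (h : Disjoint S S') : cc G T (S ∪ S') = cc G T S + cc G T S' := by
  rw [cc_symm, cc_union_left G T h, cc_symm G S, cc_symm G S']

lemma cc_mono {n : ℕ} (G : SimpleGraph (Fin n)) {S S' T T' : Finset (Fin n)} (hS : S ⊆ S')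
    (hT : T ⊆ T') : cc G S T ≤ cc G S' T' := by
  classical
  unfold cc
  apply Finset.card_le_card
  apply Finset.filter_subset_filter
  exact Finset.product_subset_product hS hT

lemma cc_self_le {n : ℕ} (G : SimpleGraph (Fin n)) (S : Finset (Fin n)) :
    cc G S S ≤ S.card * (S.card - 1) := by
  classical
  unfold cc
  have : (S ×ˢ S).filter (fun x => G.Adj x.1 x.2) ⊆ S.offDiag := by
    rintro ⟨a, b⟩ h
    rw [Finset.mem_filter, Finset.mem_product] at h
    rw [Finset.mem_offDiag]
    exact ⟨h.1.1, h.1.2, h.2.ne⟩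
  refine (Finset.card_le_card this).trans ?_
  rw [Finset.offDiag_card, Nat.mul_sub, mul_one]

lemma cc_univ {n : ℕ} (G : SimpleGraph (Fin n)) :
    cc G Finset.univ Finset.univ = 2 * G.edgeSet.ncard := by
  classical
  have h1 : cc G Finset.univ Finset.univ = ∑ v, G.degree v := by
    unfold cc
    rw [Finset.univ_product_univ]
    have : ∀ v, G.degree v = ((Finset.univ : Finset (Fin n)).filter (fun w => G.Adj v w)).card := by
      intro v
      rw [← SimpleGraph.card_neighborFinset_eq_degree]
      congr 1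
      ext w
      simp
    simp_rw [this]
    rw [Finset.card_filter, ← Finset.univ_product_univ, Finset.sum_product]
    apply Finset.sum_congr rfl
    intro v _
    rw [Finset.card_filter]
  rw [h1, SimpleGraph.sum_degrees_eq_twice_card_edges]
  congr 1
  rw [← SimpleGraph.coe_edgeFinset, Set.ncard_coe_finset]

/-- a line cut is crossed by at most as many edges as the line meets -/
lemma cc_cut_le {n : ℕ} {p : Fin n → ℝ × ℝ} {G : SimpleGraph (Fin n)} {K : ℕ}
    (hK : ∀ a b c : ℝ, (a ≠ 0 ∨ b ≠ 0) → (metEdges p G a b c).ncard ≤ K)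
    {S : Finset (Fin n)} (hS : LineCut p S) : cc G S Sᶜ ≤ K := by
  classical
  obtain ⟨a, b, c, hab, h⟩ := hS
  refine le_trans ?_ (hK a b c hab)
  unfold cc
  rw [← Set.ncard_coe_finset]
  apply Set.ncard_le_ncard_of_injOn (fun x => s(x.1, x.2))
  · rintro ⟨i, j⟩ hij
    simp only [Finset.coe_filter, Finset.mem_product, Finset.mem_compl, Set.mem_ofPred_eq] at hij
    obtain ⟨⟨hi, hj⟩, hadj⟩ := hij
    refine ⟨by simpa using hadj, i, j, rfl, ?_⟩
    have h1 := (h i).1 hi
    have h2 := (h j).2 hj
    set hi' := a * (p i).1 + b * (p i).2 with hhi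
    set hj' := a * (p j).1 + b * (p j).2 with hhj
    have h3 : 0 < hi' - hj' := by linarith
    refine ⟨((c - hj') / (hi' - hj')) • p i + ((hi' - c) / (hi' - hj')) • p j, ?_, ?_⟩
    · refine ⟨(c - hj') / (hi' - hj'), (hi' - c) / (hi' - hj'), div_pos (by linarith) h3,
        div_pos (by linarith) h3, ?_, rfl⟩
      rw [← add_div]
      rw [div_eq_one_iff_eq h3.ne']
      ring
    · simp only [Prod.fst_add, Prod.smul_fst, Prod.snd_add, Prod.smul_snd, smul_eq_mul]
      have : a * ((c - hj') / (hi' - hj') * (p i).1 + (hi' - c) / (hi' - hj') * (p j).1)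
          + b * ((c - hj') / (hi' - hj') * (p i).2 + (hi' - c) / (hi' - hj') * (p j).2)
          = ((c - hj') * hi' + (hi' - c) * hj') / (hi' - hj') := by
        rw [hhi, hhj]; ring
      rw [this]
      rw [div_eq_iff h3.ne']
      ring
  · rintro ⟨i, j⟩ hij ⟨i', j'⟩ hij' he
    simp only [Finset.coe_filter, Finset.mem_product, Finset.mem_compl, Set.mem_ofPred_eq] at hij hij'
    simp only [Sym2.eq_iff] at he
    rcases he with ⟨rfl, rfl⟩ | ⟨rfl, rfl⟩
    · rfl
    · exact absurd hij.1.1 hij'.1.2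

end Pool.Agent.H41.Stab
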