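import Mathlib

/-!
Definitions for MP_b5bf4a_co (edges of geometric graphs forced to meet one line).
A geometric graph on `n` points is a map `p : Fin n → ℝ × ℝ` in general position together with a
simple graph `G` on `Fin n`.
-/

set_option autoImplicit false

namespace Pool.Agent.H41.Stab

/-- the points are distinct and no three of them are collinear -/
def GenPos {n : ℕ} (p : Fin n → ℝ × ℝ) : Prop :=
  Function.Injective p ∧
    ∀ i j k : Fin n, i ≠ j → j ≠ k → i ≠ k → ¬ Collinear ℝ {p i, p j, p k}

/-- the edges of `G` whose relative interior meets the line `a x + b y = c` -/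
def metEdges {n : ℕ} (p : Fin n → ℝ × ℝ) (G : SimpleGraph (Fin n)) (a b c : ℝ) :
    Set (Sym2 (Fin n)) :=
  {e | e ∈ G.edgeSet ∧ ∃ i j : Fin n, e = s(i, j) ∧
    ∃ z ∈ openSegment ℝ (p i) (p j), a * z.1 + b * z.2 = c}

/-- `f n k` is the least `e` such that for every geometric graph on `n` points with at least `e`
edges there is a line which meets (the relative interiors of) at least `k` edges -/
noncomputable def f (n k : ℕ) : ℕ :=
  sInf {e : ℕ | ∀ p : Fin n → ℝ × ℝ, GenPos p → ∀ G : SimpleGraph (Fin n),
    e ≤ G.edgeSet.ncard →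
      ∃ a b c : ℝ, (a ≠ 0 ∨ b ≠ 0) ∧ k ≤ (metEdges p G a b c).ncard}

end Pool.Agent.H41.Stab
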