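import Pool.Agent.H41.StabLow

/-!
Lower bound for MP_b5bf4a_co: counting.
-/

set_option autoImplicit false

namespace Pool.Agent.H41.Stab

open Finset

/-- Beatty-type set with density `D / n` -/
def Bt (n D x : ℕ) : Prop := x * D / n < (x + 1) * D / n

instance (n D x : ℕ) : Decidable (Bt n D x) := by unfold Bt; infer_instance

lemma Bt_step {n D : ℕ} (hn : 0 < n) (hD : D ≤ n) (x : ℕ) :
    (x + 1) * D / n = x * D / n + if Bt n D x then 1 else 0 := by
  have h1 : (x + 1) * D / n ≤ x * D / n + 1 := by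
    have : x * D / n + 1 = (x * D + n) / n := by
      rw [Nat.add_div_right _ hn]
    rw [this]
    apply Nat.div_le_div_right
    rw [add_mul]; omega
  have h2 : x * D / n ≤ (x + 1) * D / n := by
    apply Nat.div_le_div_right
    rw [add_mul]; omega
  by_cases h : Bt n D x
  · simp only [h, if_true]
    unfold Bt at h
    omega
  · simp only [h, if_false]
    unfold Bt at h
    omega

lemma Bt_count {n D : ℕ} (hn : 0 < n) (hD : D ≤ n) (x L : ℕ) :
    ((Finset.range L).filter (fun r => Bt n D (x + r))).card + x * D / n = (x + L) * D / n := by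
  induction L with
  | zero => simp
  | succ L ih =>
    have h1 := Bt_step hn hD (x + L)
    have e : (x + (L + 1)) * D / n = (x + L + 1) * D / n := by rw [add_assoc]
    rw [e, h1, ← ih, Finset.range_add_one, Finset.filter_insert]
    by_cases h : Bt n D (x + L)
    · rw [if_pos h, if_pos h, Finset.card_insert_of_notMem (by simp)]
      omega
    · rw [if_neg h, if_neg h]
      omega

lemma Bt_mod {n D : ℕ} (hn : 0 < n) (x : ℕ) : Bt n D (x % n) ↔ Bt n D x := by
  have h1 : x * D / n = (x % n) * D / n + (x / n) * D := by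
    conv_lhs => rw [← Nat.mod_add_div x n]
    rw [add_mul, mul_assoc, Nat.add_mul_div_left _ _ hn]
  have h2 : (x + 1) * D / n = (x % n + 1) * D / n + (x / n) * D := by
    conv_lhs => rw [← Nat.mod_add_div x n]
    rw [add_right_comm, add_mul, mul_assoc, Nat.add_mul_div_left _ _ hn]
  unfold Bt
  omega

/-- the arcs: all arcs of lengths `1, …, s`, and those of length `s + 1` starting in the Beatty
set -/
def arcs (n s D : ℕ) : Finset (ℕ × ℕ) :=
  (Finset.range n ×ˢ Finset.Icc 1 s) ∪ ((Finset.range n).filter (fun x => Bt n D x)) ×ˢ {s + 1}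

lemma arcs_card {n s D : ℕ} (hn : 0 < n) (hD : D ≤ n) : (arcs n s D).card = n * s + D := by
  unfold arcs
  rw [Finset.card_union_of_disjoint]
  · rw [Finset.card_product, Finset.card_product, Finset.card_range, Nat.card_Icc,
      Finset.card_singleton]
    have h := Bt_count hn hD 0 n
    simp only [zero_add, zero_mul, Nat.zero_div, add_zero] at h
    rw [h, Nat.mul_div_cancel_left _ hn]
    simp
  · rw [Finset.disjoint_left]
    rintro ⟨i, l⟩ h1 h2
    simp only [Finset.mem_product, Finset.mem_Icc, Finset.mem_singleton] at h1 h2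
    omega

lemma arcs_prop {n s D : ℕ} (h : 2 * (s + 1) < n ∨ (2 * s < n ∧ D = 0)) :
    ∀ x ∈ arcs n s D, x.1 < n ∧ 1 ≤ x.2 ∧ 2 * x.2 < n := by
  rintro ⟨i, l⟩ hx
  simp only [arcs, Finset.mem_union, Finset.mem_product, Finset.mem_range, Finset.mem_Icc,
    Finset.mem_filter, Finset.mem_singleton] at hx
  simp only
  rcases hx with ⟨h1, h2, h3⟩ | ⟨⟨h1, h2⟩, h3⟩
  · rcases h with h | ⟨h, _⟩ <;> omega
  · rcases h with h | ⟨h, h'⟩
    · omega
    · subst h'
      simp [Bt] at h2

lemma gauss (s : ℕ) : 2 * ∑ l ∈ Finset.Icc 1 s, l = s * (s + 1) := by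
  induction s with
  | zero => simp
  | succ s ih =>
    rw [Finset.sum_Icc_succ_top (by omega), mul_add, ih]
    ring

lemma covering_bound {n s d D : ℕ} (hn : 0 < n) (hs : s + 1 ≤ n) (hD : D ≤ n)
    (hd : (s + 1) * D ≤ n * d) (g : ℕ) (hg : g < n) :
    ∃ Z : Finset (ℕ × ℕ), Z.card ≤ (∑ l ∈ Finset.Icc 1 s, l) + d ∧
      ∀ x ∈ arcs n s D, Covers n g x → x ∈ Z := by
  classical
  refine ⟨((Finset.Icc 1 s).biUnion (fun l => (Finset.range l).image
      (fun r => ((g + n - l + r) % n, l)))) ∪
    ((Finset.range (s + 1)).filter (fun r => Bt n D (g + n - (s + 1) + r))).image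
      (fun r => ((g + n - (s + 1) + r) % n, s + 1)), ?_, ?_⟩
  · refine (Finset.card_union_le _ _).trans (Nat.add_le_add ?_ ?_)
    · refine Finset.card_biUnion_le.trans (Finset.sum_le_sum ?_)
      intro l _
      exact Finset.card_image_le.trans (Finset.card_range l).le
    · refine Finset.card_image_le.trans ?_
      have h1 := Bt_count hn hD (g + n - (s + 1)) (s + 1)
      have h2 : (g + n - (s + 1) + (s + 1)) * D / n ≤ (g + n - (s + 1)) * D / n + d := by
        rw [← Nat.add_mul_div_left _ _ hn]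
        apply Nat.div_le_div_right
        rw [add_mul]
        omega
      omega
  · rintro ⟨i, l⟩ hx ⟨r, hr, hg'⟩
    simp only at hr hg'
    have hkey : i < n → l ≤ n → (g + n - l + (l - 1 - r)) % n = i := by
      intro hi hl
      have e : g + n - l + (l - 1 - r) = g + n - 1 - r := by omega
      rw [e]
      rcases lt_or_ge (i + r + 1) n with h | h
      · rw [Nat.mod_eq_of_lt h] at hg'
        have : g + n - 1 - r = i + n := by omega
        rw [this, Nat.add_mod_right, Nat.mod_eq_of_lt hi]
      · rw [Nat.mod_eq_sub_mod h, Nat.mod_eq_of_lt (by omega)] at hg'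
        have : g + n - 1 - r = i := by omega
        rw [this, Nat.mod_eq_of_lt hi]
    simp only [arcs, Finset.mem_union, Finset.mem_product, Finset.mem_range, Finset.mem_Icc,
      Finset.mem_filter, Finset.mem_singleton] at hx
    rw [Finset.mem_union]
    rcases hx with ⟨h1, h2, h3⟩ | ⟨⟨h1, h2⟩, h3⟩
    · left
      rw [Finset.mem_biUnion]
      refine ⟨l, by rw [Finset.mem_Icc]; exact ⟨h2, h3⟩, ?_⟩
      rw [Finset.mem_image]
      refine ⟨l - 1 - r, by rw [Finset.mem_range]; omega, ?_⟩
      rw [hkey h1 (by omega)]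
    · right
      subst h3
      rw [Finset.mem_image]
      refine ⟨s + 1 - 1 - r, ?_, ?_⟩
      · rw [Finset.mem_filter, Finset.mem_range]
        refine ⟨by omega, ?_⟩
        rw [← Bt_mod hn, hkey h1 hs]
        exact h2
      · rw [hkey h1 hs]

/-- the lower bound construction, even case -/
theorem low_even {n s d : ℕ} (hn : 0 < n) (hd : d ≤ s + 1)
    (h : 2 * (s + 1) < n ∨ (2 * s < n ∧ d = 0)) :
    ∃ G : SimpleGraph (Fin n), G.edgeSet.ncard = n * s + n * d / (s + 1) ∧
      ∀ a b c : ℝ, (a ≠ 0 ∨ b ≠ 0) → (metEdges (par n) G a b c).ncard ≤ s * (s + 1) + 2 * d := by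
  have hD : n * d / (s + 1) ≤ n := by
    apply Nat.div_le_of_le_mul
    rw [mul_comm (s + 1) n]
    exact Nat.mul_le_mul_left n hd
  have hD' : (s + 1) * (n * d / (s + 1)) ≤ n * d := Nat.mul_div_le _ _
  have h' : 2 * (s + 1) < n ∨ (2 * s < n ∧ n * d / (s + 1) = 0) := by
    rcases h with h | ⟨h, rfl⟩
    · exact Or.inl h
    · exact Or.inr ⟨h, by simp⟩
  have hsn : s + 1 ≤ n := by rcases h with h | ⟨h, _⟩ <;> omega
  refine ⟨arcGraph hn (arcs n s (n * d / (s + 1))), ?_, ?_⟩
  · rw [arcGraph_ncard hn _ (arcs_prop h'), arcs_card hn hD]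
  · intro a b c hab
    have h1 := arcGraph_met hn _ (arcs_prop h') _
      (fun g hg => covering_bound hn hsn hD hD' g hg) a b c hab
    have h2 := gauss s
    omega

/-- adding one edge -/
theorem add_edge {n : ℕ} {p : Fin n → ℝ × ℝ} {G : SimpleGraph (Fin n)} {K : ℕ}
    (hlt : G.edgeSet.ncard < n.choose 2)
    (hK : ∀ a b c : ℝ, (a ≠ 0 ∨ b ≠ 0) → (metEdges p G a b c).ncard ≤ K) :
    ∃ G' : SimpleGraph (Fin n), G'.edgeSet.ncard = G.edgeSet.ncard + 1 ∧
      ∀ a b c : ℝ, (a ≠ 0 ∨ b ≠ 0) → (metEdges p G' a b c).ncard ≤ K + 1 := by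
  classical
  have hex : ∃ i j : Fin n, i ≠ j ∧ ¬ G.Adj i j := by
    by_contra hcon
    push Not at hcon
    have htop : G = ⊤ := by
      ext i j
      simp only [SimpleGraph.top_adj]
      exact ⟨fun h => h.ne, fun h => hcon i j h⟩
    subst htop
    have : (⊤ : SimpleGraph (Fin n)).edgeSet.ncard = n.choose 2 := by
      rw [← SimpleGraph.coe_edgeFinset, Set.ncard_coe_finset,
        SimpleGraph.card_edgeFinset_top_eq_card_choose_two, Fintype.card_fin]
    omega
  obtain ⟨i, j, hij, hadj⟩ := hex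
  refine ⟨SimpleGraph.fromEdgeSet (insert s(i, j) G.edgeSet), ?_, ?_⟩
  · have : (SimpleGraph.fromEdgeSet (insert s(i, j) G.edgeSet)).edgeSet
        = insert s(i, j) G.edgeSet := by
      rw [SimpleGraph.edgeSet_fromEdgeSet]
      ext e
      constructor
      · exact fun h => h.1
      · intro h
        refine ⟨h, ?_⟩
        rcases h with rfl | h
        · simpa using hij
        · exact SimpleGraph.not_isDiag_of_mem_edgeSet G h
    rw [this, Set.ncard_insert_of_notMem (by simpa using hadj)]
  · intro a b c hab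
    have h1 := hK a b c hab
    have hsub : metEdges p (SimpleGraph.fromEdgeSet (insert s(i, j) G.edgeSet)) a b c
        ⊆ insert s(i, j) (metEdges p G a b c) := by
      rintro e ⟨he, hmet⟩
      rw [SimpleGraph.edgeSet_fromEdgeSet] at he
      rcases he.1 with rfl | he
      · exact Set.mem_insert _ _
      · exact Set.mem_insert_of_mem _ ⟨he, hmet⟩
    calc _ ≤ (insert s(i, j) (metEdges p G a b c)).ncard :=
          Set.ncard_le_ncard hsub (Set.toFinite _)
      _ ≤ (metEdges p G a b c).ncard + 1 := Set.ncard_insert_le _ _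
      _ ≤ K + 1 := by omega

end Pool.Agent.H41.Stab
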