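import Pool.Agent.H41.StabUp
import Pool.Agent.H41.StabLow2

/-!
The function `f n k` of MP_b5bf4a_co: bounds.
-/

set_option autoImplicit false

namespace Pool.Agent.H41.Stab

open Finset

lemma ncard_edgeSet_le {n : ℕ} (G : SimpleGraph (Fin n)) : G.edgeSet.ncard ≤ n.choose 2 := by
  classical
  rw [← SimpleGraph.coe_edgeFinset, Set.ncard_coe_finset]
  have := SimpleGraph.card_edgeFinset_le_card_choose_two (G := G)
  rwa [Fintype.card_fin] at this

lemma f_spec (n k : ℕ) (p : Fin n → ℝ × ℝ) (hp : GenPos p) (G : SimpleGraph (Fin n))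
    (h : f n k ≤ G.edgeSet.ncard) :
    ∃ a b c : ℝ, (a ≠ 0 ∨ b ≠ 0) ∧ k ≤ (metEdges p G a b c).ncard := by
  have hne : {e : ℕ | ∀ p : Fin n → ℝ × ℝ, GenPos p → ∀ G : SimpleGraph (Fin n),
    e ≤ G.edgeSet.ncard →
      ∃ a b c : ℝ, (a ≠ 0 ∨ b ≠ 0) ∧ k ≤ (metEdges p G a b c).ncard}.Nonempty := by
    refine ⟨n.choose 2 + 1, ?_⟩
    intro p _ G hG
    have := ncard_edgeSet_le G
    omega
  exact Nat.sInf_mem hne p hp G h

lemma lt_f {n k : ℕ} {p : Fin n → ℝ × ℝ} (hp : GenPos p) {G : SimpleGraph (Fin n)}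
    (h : ∀ a b c : ℝ, (a ≠ 0 ∨ b ≠ 0) → (metEdges p G a b c).ncard < k) :
    G.edgeSet.ncard < f n k := by
  by_contra hcon
  obtain ⟨a, b, c, hab, hk⟩ := f_spec n k p hp G (not_lt.1 hcon)
  have := h a b c hab
  omega

lemma f_le {n K M : ℕ} (h : ∀ p : Fin n → ℝ × ℝ, GenPos p → ∀ G : SimpleGraph (Fin n),
    (∀ S, LineCut p S → cc G S Sᶜ ≤ K) → G.edgeSet.ncard ≤ M) : f n (K + 1) ≤ M + 1 := by
  apply Nat.sInf_le
  intro p hp G hG
  by_contra hcon
  push Not at hcon
  have := h p hp G (fun S hS => cc_cut_le (K := K) (fun a b c hab => by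
    have := hcon a b c hab
    omega) hS)
  omega

/-- list of `m` cell sizes, `a` of them `s + 1` and the others `s` -/
def cells (m a s : ℕ) : List ℕ := List.replicate a (s + 1) ++ List.replicate (m - a) s

lemma cells_length {m a s : ℕ} (h : a ≤ m) : (cells m a s).length = m := by
  simp [cells]; omega

lemma cells_sum {m a s : ℕ} (h : a ≤ m) : (cells m a s).sum = m * s + a := by
  obtain ⟨b, rfl⟩ : ∃ b, m = a + b := ⟨m - a, by omega⟩
  simp [cells]
  ring

lemma cells_Sg {m a s : ℕ} (h : a ≤ m) :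
    Sg (cells m a s) = m * (s * (s - 1)) + a * (2 * s) := by
  obtain ⟨b, rfl⟩ : ∃ b, m = a + b := ⟨m - a, by omega⟩
  rcases s with _ | s
  · simp [cells, Sg]
  · simp [cells, Sg]
    ring

lemma cells_pos {m a s : ℕ} (hs : 1 ≤ s) : ∀ x ∈ cells m a s, 1 ≤ x := by
  intro x hx
  rw [cells, List.mem_append] at hx
  rcases hx with hx | hx
  · rw [List.mem_replicate] at hx; omega
  · rw [List.mem_replicate] at hx; omega

lemma ne_nil_of_length {l : List ℕ} (h : 1 ≤ l.length) : l ≠ [] := by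
  rintro rfl
  simp at h

/-- upper bound with an even number `2m` of cells of sizes `s` and `s + 1` -/
theorem f_upper_even {n m s K : ℕ} (hm : 1 ≤ m) (hs : 1 ≤ s) (h1 : 2 * m * s ≤ n)
    (h2 : n ≤ 2 * m * (s + 1)) : f n (K + 1) + m * (s * (s + 1)) ≤ n * s + m * K + 1 := by
  obtain ⟨r, hr⟩ : ∃ r, n = 2 * m * s + r := ⟨n - 2 * m * s, by omega⟩
  have hr' : r ≤ 2 * m := by rw [hr] at h2; nlinarith
  have key : f n (K + 1) ≤ (m * K + m * (s * (s - 1)) + r * s) + 1 := by
    apply f_le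
    intro p hp G hcut
    have ha : min r m ≤ m := min_le_right _ _
    have hb : r - min r m ≤ m := by omega
    have := upper_even hp hcut (l := cells m (min r m) s) (l' := cells m (r - min r m) s)
      (ne_nil_of_length (by rw [cells_length ha]; exact hm))
      (by rw [cells_length ha, cells_length hb]) (cells_pos hs) (cells_pos hs) (by
        rw [cells_sum ha, cells_sum hb, hr]
        have : min r m + (r - min r m) = r := by omega
        nlinarith)
    rw [cells_length ha, cells_Sg ha, cells_Sg hb] at this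
    have e : min r m * (2 * s) + (r - min r m) * (2 * s) = 2 * (r * s) := by
      rw [← add_mul]
      have : min r m + (r - min r m) = r := by omega
      rw [this]; ring
    have e2 : m * (s * (s - 1)) + min r m * (2 * s) + (m * (s * (s - 1)) + (r - min r m) * (2 * s))
        = 2 * (m * (s * (s - 1)) + r * s) := by
      rw [mul_add, ← e]; ring
    have e3 : 2 * m * K = 2 * (m * K) := by ring
    omega
  obtain ⟨t, rfl⟩ : ∃ t, s = t + 1 := ⟨s - 1, by omega⟩
  rw [Nat.add_sub_cancel] at key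
  have : (m * K + m * ((t + 1) * t) + r * (t + 1)) + 1 + m * ((t + 1) * (t + 1 + 1))
      = n * (t + 1) + m * K + 1 := by rw [hr]; ring
  omega

/-- upper bound with an arbitrary number `N` of cells of sizes `s` and `s + 1` -/
theorem f_upper_gen {n N s K c : ℕ} (hc : 2 * c ≤ K) (hc' : K ≤ 2 * c + 1) (hN : 1 ≤ N)
    (hs : 1 ≤ s) (h1 : N * s ≤ n) (h2 : n ≤ N * (s + 1)) :
    2 * f n (K + 1) + 6 * c + N * (s * (s + 1)) ≤ 2 * (n * s) + 2 * (N * c) + 4 * K + 2 := by
  obtain ⟨r, hr⟩ : ∃ r, n = N * s + r := ⟨n - N * s, by omega⟩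
  have hr' : r ≤ N := by rw [hr] at h2; nlinarith
  -- twice the number of edges
  have key0 : ∀ p : Fin n → ℝ × ℝ, GenPos p → ∀ G : SimpleGraph (Fin n),
      (∀ S, LineCut p S → cc G S Sᶜ ≤ K) →
      2 * G.edgeSet.ncard + 6 * c ≤ 2 * N * c + 4 * K + (N * (s * (s - 1)) + r * (2 * s)) := by
    intro p hp G hcut
    have := upper_gen hp hcut hc hc' (l := cells N r s)
      (ne_nil_of_length (by rw [cells_length hr']; exact hN)) (cells_pos hs) (by
        rw [cells_sum hr', hr])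
    rw [cells_length hr', cells_Sg hr'] at this
    exact this
  obtain ⟨t, rfl⟩ : ∃ t, s = t + 1 := ⟨s - 1, by omega⟩
  simp only [Nat.add_sub_cancel] at key0
  have e1 : 2 * (n * (t + 1)) = 2 * ((N * (t + 1) + r) * (t + 1)) := by rw [hr]
  have e2 : 2 * ((N * (t + 1) + r) * (t + 1))
      = N * ((t + 1) * t) + r * (2 * (t + 1)) + N * ((t + 1) * (t + 1 + 1)) := by ring
  -- choose `M`
  set B := 2 * N * c + 4 * K + (N * ((t + 1) * t) + r * (2 * (t + 1))) with hB
  have hBc : 6 * c ≤ B := by omega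
  have key : f n (K + 1) ≤ (B - 6 * c) / 2 + 1 := by
    apply f_le
    intro p hp G hcut
    have := key0 p hp G hcut
    omega
  have e3 : 2 * N * c = 2 * (N * c) := by ring
  omega

/-- upper bound with an odd number `2m + 1` of cells, for even `K = 2c` -/
theorem f_upper_odd {n m s c : ℕ} (hm : 1 ≤ m) (hs : 1 ≤ s) (hcm : c + 2 ≤ 2 * m)
    (h1 : (2 * m + 1) * s ≤ n) (h2 : n ≤ (2 * m + 1) * (s + 1)) :
    2 * f n (2 * c + 1) + (2 * m + 1) * (s * (s + 1))
      ≤ 2 * (n * s) + 2 * ((2 * m + 1) * c) + 2 := by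
  obtain ⟨r, hr⟩ : ∃ r, n = (2 * m + 1) * s + r := ⟨n - (2 * m + 1) * s, by omega⟩
  have hr' : r ≤ 2 * m + 1 := by rw [hr] at h2; nlinarith
  obtain ⟨a, b, e, ha, hb, he, hab⟩ : ∃ a b e, a ≤ m ∧ b ≤ m ∧ e ≤ 1 ∧ a + b + e = r := by
    refine ⟨min r m, min (r - min r m) m, r - min r m - min (r - min r m) m, ?_, ?_, ?_, ?_⟩ <;>
      omega
  have key0 : ∀ p : Fin n → ℝ × ℝ, GenPos p → ∀ G : SimpleGraph (Fin n),
      (∀ S, LineCut p S → cc G S Sᶜ ≤ 2 * c) →
      2 * G.edgeSet.ncard ≤ 2 * (2 * m + 1) * c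
        + ((2 * m + 1) * (s * (s - 1)) + r * (2 * s)) := by
    intro p hp G hcut
    have := upper_odd (c := c) hp hcut (l₁ := cells m a s) (l₂ := cells m b s) (s := s + e)
      (cells_length ha) (cells_length hb) hm (cells_pos hs) (cells_pos hs) (by omega) (by
        rw [cells_sum ha, cells_sum hb, hr, ← hab]; ring) hcm
    rw [cells_Sg ha, cells_Sg hb] at this
    refine this.trans (le_of_eq ?_)
    obtain ⟨t, rfl⟩ : ∃ t, s = t + 1 := ⟨s - 1, by omega⟩
    rw [← hab]
    have he' : e = 0 ∨ e = 1 := by omega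
    rcases he' with rfl | rfl
    · simp only [add_zero, Nat.add_sub_cancel]
      ring
    · simp only [Nat.add_sub_cancel]
      ring
  obtain ⟨t, rfl⟩ : ∃ t, s = t + 1 := ⟨s - 1, by omega⟩
  simp only [Nat.add_sub_cancel] at key0
  have e1 : 2 * (n * (t + 1)) = 2 * (((2 * m + 1) * (t + 1) + r) * (t + 1)) := by rw [hr]
  have e2 : 2 * (((2 * m + 1) * (t + 1) + r) * (t + 1))
      = (2 * m + 1) * ((t + 1) * t) + r * (2 * (t + 1)) + (2 * m + 1) * ((t + 1) * (t + 1 + 1)) := by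
    ring
  set B := 2 * (2 * m + 1) * c + ((2 * m + 1) * ((t + 1) * t) + r * (2 * (t + 1))) with hB
  have key : f n (2 * c + 1) ≤ B / 2 + 1 := by
    apply f_le
    intro p hp G hcut
    have := key0 p hp G hcut
    omega
  have e3 : 2 * (2 * m + 1) * c = 2 * ((2 * m + 1) * c) := by ring
  omega

/-- lower bound, odd `k` -/
theorem f_lower_odd {n s d : ℕ} (hd : d ≤ s + 1)
    (h : 2 * (s + 1) < n ∨ (2 * s < n ∧ d = 0)) :
    n * s + n * d / (s + 1) + 1 ≤ f n (s * (s + 1) + 2 * d + 1) := by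
  have hn : 0 < n := by rcases h with h | ⟨h, _⟩ <;> omega
  obtain ⟨G, hG, hmet⟩ := low_even hn hd h
  have := lt_f (par_genPos n) (G := G) (k := s * (s + 1) + 2 * d + 1) (fun a b c hab => by
    have := hmet a b c hab
    omega)
  omega

/-- lower bound, even `k` -/
theorem f_lower_even {n s d : ℕ} (hd : d ≤ s) (h : 2 * (s + 1) < n) :
    n * s + n * d / (s + 1) + 2 ≤ f n (s * (s + 1) + 2 * d + 2) := by
  have hn : 0 < n := by omega
  obtain ⟨G, hG, hmet⟩ := low_even hn (by omega : d ≤ s + 1) (Or.inl h)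
  have hlt : G.edgeSet.ncard < n.choose 2 := by
    rw [hG]
    have h1 : n * d / (s + 1) < n := by
      rw [Nat.div_lt_iff_lt_mul (by omega)]
      exact Nat.mul_lt_mul_of_pos_left (by omega) hn
    have h2 : n * s + n ≤ n.choose 2 := by
      rw [Nat.choose_two_right, Nat.le_div_iff_mul_le (by norm_num)]
      obtain ⟨w, rfl⟩ : ∃ w, n = 2 * (s + 1) + 1 + w := ⟨n - (2 * (s + 1) + 1), by omega⟩
      have e1 : 2 * (s + 1) + 1 + w - 1 = 2 * (s + 1) + w := by omega
      rw [e1]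
      nlinarith
    omega
  obtain ⟨G', hG', hmet'⟩ := add_edge hlt hmet
  have := lt_f (par_genPos n) (G := G') (k := s * (s + 1) + 2 * d + 2) (fun a b c hab => by
    have := hmet' a b c hab
    omega)
  omega

end Pool.Agent.H41.Stab
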