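import Pool.Agent.H41.StabDefs

/-!
Geometry for MP_b5bf4a_co: for two finite sets `A`, `B` separated by a line, in general position,
and all `1 ≤ i ≤ |A|`, `1 ≤ j ≤ |B|` there is a line with exactly `i` points of `A` and `j` points
of `B` on its positive side.
-/

set_option autoImplicit false

namespace Pool.Agent.H41.Stab

open Finset

lemma exists_small {ι : Type*} (W : Finset ι) (d : ι → ℝ) :
    ∃ ε : ℝ, 0 < ε ∧ ∀ v ∈ W, 0 < d v → ε < d v := by
  classical
  induction W using Finset.induction_on with
  | empty => exact ⟨1, one_pos, by simp⟩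
  | insert a W ha ih =>
    obtain ⟨ε, hε, h⟩ := ih
    by_cases hd : 0 < d a
    · refine ⟨min ε (d a / 2), lt_min hε (by linarith), ?_⟩
      intro v hv hv0
      rcases Finset.mem_insert.1 hv with rfl | hv
      · exact lt_of_le_of_lt (min_le_right _ _) (by linarith)
      · exact lt_of_le_of_lt (min_le_left _ _) (h v hv hv0)
    · refine ⟨ε, hε, ?_⟩
      intro v hv hv0
      rcases Finset.mem_insert.1 hv with rfl | hv
      · exact absurd hv0 hd
      · exact h v hv hv0

lemma key {ι : Type*} {S : Finset ι} (X Y : ι → ℝ) (s t s' t' : ℝ)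
    (hle : ∀ v ∈ S, s * X v + t ≤ s' * X v + t')
    (hcard : (S.filter (fun v => s * X v + t < Y v)).card
      = (S.filter (fun v => s' * X v + t' < Y v)).card)
    (z : ι) (hz : z ∈ S) (hz' : Y z = s' * X z + t') : Y z = s * X z + t := by
  classical
  have hsub : S.filter (fun v => s' * X v + t' < Y v) ⊆ S.filter (fun v => s * X v + t < Y v) := by
    intro v hv
    rw [Finset.mem_filter] at hv ⊢
    exact ⟨hv.1, lt_of_le_of_lt (hle v hv.1) hv.2⟩
  have heq := Finset.eq_of_subset_of_card_le hsub hcard.le
  have hnot : z ∉ S.filter (fun v => s * X v + t < Y v) := by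
    rw [← heq, Finset.mem_filter]
    rintro ⟨_, h⟩
    linarith
  rw [Finset.mem_filter] at hnot
  have h1 : ¬ (s * X z + t < Y z) := fun h => hnot ⟨hz, h⟩
  have h2 := hle z hz
  linarith [not_lt.1 h1]

/-- the counts of the line through `p` and `q` -/
noncomputable def cnt {ι : Type*} (X Y : ι → ℝ) (A B : Finset ι) (pq : ι × ι) : ℕ × ℕ :=
  let s := (Y pq.2 - Y pq.1) / (X pq.2 - X pq.1)
  let t := Y pq.1 - s * X pq.1
  ((A.filter (fun v => s * X v + t < Y v)).card, (B.filter (fun v => s * X v + t < Y v)).card)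

theorem hs_abs {ι : Type*} [DecidableEq ι] (X Y : ι → ℝ) (A B W : Finset ι)
    (hA : ∀ v ∈ A, X v < 0) (hB : ∀ v ∈ B, 0 < X v)
    (hcol : ∀ u ∈ A ∪ B, ∀ v ∈ A ∪ B, ∀ w ∈ A ∪ B, u ≠ v → v ≠ w → u ≠ w →
      (X v - X u) * (Y w - Y u) - (X w - X u) * (Y v - Y u) ≠ 0)
    (i j : ℕ) (hi : 1 ≤ i) (hi' : i ≤ A.card) (hj : 1 ≤ j) (hj' : j ≤ B.card) :
    ∃ s t : ℝ, (∀ v ∈ W, Y v ≠ s * X v + t) ∧
      (A.filter (fun v => s * X v + t < Y v)).card = i ∧
      (B.filter (fun v => s * X v + t < Y v)).card = j := by
  -- points on the line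
  have hline : ∀ p ∈ A, ∀ q ∈ B, ∃ s t : ℝ, Y p = s * X p + t ∧ Y q = s * X q + t ∧
      cnt X Y A B (p, q) = ((A.filter (fun v => s * X v + t < Y v)).card,
        (B.filter (fun v => s * X v + t < Y v)).card) := by
    intro p hp q hq
    have h1 := hA p hp
    have h2 := hB q hq
    have h3 : X q - X p ≠ 0 := by linarith
    refine ⟨(Y q - Y p) / (X q - X p), Y p - (Y q - Y p) / (X q - X p) * X p, by ring, ?_, rfl⟩
    have : (Y q - Y p) / (X q - X p) * (X q - X p) = Y q - Y p := div_mul_cancel₀ _ h3
    linarith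
  have hAB : ∀ p ∈ A, ∀ q ∈ B, p ≠ q := by
    rintro p hp q hq rfl
    linarith [hA p hp, hB p hq]
  -- three points on a line
  have hthree : ∀ s t : ℝ, ∀ u ∈ A ∪ B, ∀ v ∈ A ∪ B, ∀ w ∈ A ∪ B, Y u = s * X u + t →
      Y v = s * X v + t → Y w = s * X w + t → u ≠ v → v ≠ w → u = w := by
    intro s t u hu v hv w hw h1 h2 h3 huv hvw
    by_contra huw
    apply hcol u hu v hv w hw huv hvw huw
    rw [h1, h2, h3]; ring
  have hinj : ∀ x ∈ A ×ˢ B, ∀ y ∈ A ×ˢ B, cnt X Y A B x = cnt X Y A B y → x = y := by
    rintro ⟨p, q⟩ hpq ⟨p', q'⟩ hpq' he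
    rw [Finset.mem_product] at hpq hpq'
    obtain ⟨hp, hq⟩ := hpq
    obtain ⟨hp', hq'⟩ := hpq'
    simp only at hp hq hp' hq'
    obtain ⟨s, t, e1, e2, e3⟩ := hline p hp q hq
    obtain ⟨s', t', e1', e2', e3'⟩ := hline p' hp' q' hq'
    rw [e3, e3', Prod.mk.injEq] at he
    obtain ⟨heA, heB⟩ := he
    rcases lt_trichotomy s s' with hs | hs | hs
    · exfalso
      rcases le_or_gt t' t with ht | ht
      · -- on A the second line is lower
        have hlt : ∀ v ∈ A, s' * X v + t' < s * X v + t := by
          intro v hv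
          nlinarith [hA v hv]
        have := key X Y s' t' s t (fun v hv => (hlt v hv).le) heA.symm p hp e1
        linarith [hlt p hp]
      · have hlt : ∀ v ∈ B, s * X v + t < s' * X v + t' := by
          intro v hv
          nlinarith [hB v hv]
        have := key X Y s t s' t' (fun v hv => (hlt v hv).le) heB q' hq' e2'
        linarith [hlt q' hq']
    · subst hs
      have htt : t = t' := by
        rcases le_total t t' with ht | ht
        · have := key X Y s t s t' (fun v _ => by linarith) heA p' hp' e1'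
          linarith
        · have := key X Y s t' s t (fun v _ => by linarith) heA.symm p hp e1
          linarith
      subst htt
      have hpp : p = p' := by
        by_contra hne
        exact hne (hthree s t p (by simp [hp]) q (by simp [hq]) p' (by simp [hp']) e1 e2 e1'
          (hAB p hp q hq) (hAB p' hp' q hq).symm)
      have hqq : q = q' := by
        by_contra hne
        exact hne (hthree s t q (by simp [hq]) p (by simp [hp]) q' (by simp [hq']) e2 e1 e2'
          (hAB p hp q hq).symm (hAB p hp q' hq'))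
      rw [hpp, hqq]
    · exfalso
      rcases le_or_gt t t' with ht | ht
      · have hlt : ∀ v ∈ A, s * X v + t < s' * X v + t' := by
          intro v hv
          nlinarith [hA v hv]
        have := key X Y s t s' t' (fun v hv => (hlt v hv).le) heA p' hp' e1'
        linarith [hlt p' hp']
      · have hlt : ∀ v ∈ B, s' * X v + t' < s * X v + t := by
          intro v hv
          nlinarith [hB v hv]
        have := key X Y s' t' s t (fun v hv => (hlt v hv).le) heB.symm q hq e2
        linarith [hlt q hq]
  have hmaps : (A ×ˢ B).image (cnt X Y A B) ⊆ (Finset.range A.card) ×ˢ (Finset.range B.card) := by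
    intro z hz
    rw [Finset.mem_image] at hz
    obtain ⟨⟨p, q⟩, hpq, rfl⟩ := hz
    rw [Finset.mem_product] at hpq
    obtain ⟨hp, hq⟩ := hpq
    simp only at hp hq
    obtain ⟨s, t, e1, e2, e3⟩ := hline p hp q hq
    rw [e3, Finset.mem_product, Finset.mem_range, Finset.mem_range]
    constructor
    · apply Finset.card_lt_card
      rw [Finset.ssubset_iff_of_subset (Finset.filter_subset _ _)]
      refine ⟨p, hp, ?_⟩
      rw [Finset.mem_filter]
      rintro ⟨_, h⟩
      linarith
    · apply Finset.card_lt_card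
      rw [Finset.ssubset_iff_of_subset (Finset.filter_subset _ _)]
      refine ⟨q, hq, ?_⟩
      rw [Finset.mem_filter]
      rintro ⟨_, h⟩
      linarith
  have himg : (A ×ˢ B).image (cnt X Y A B) = (Finset.range A.card) ×ˢ (Finset.range B.card) := by
    apply Finset.eq_of_subset_of_card_le hmaps
    rw [Finset.card_image_of_injOn (by
      intro x hx y hy h
      exact hinj x hx y hy h)]
    simp [Finset.card_product]
  have hmem : (i - 1, j - 1) ∈ (A ×ˢ B).image (cnt X Y A B) := by
    rw [himg, Finset.mem_product, Finset.mem_range, Finset.mem_range]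
    constructor <;> simp only <;> omega
  rw [Finset.mem_image] at hmem
  obtain ⟨⟨p, q⟩, hpq, hc⟩ := hmem
  rw [Finset.mem_product] at hpq
  obtain ⟨hp, hq⟩ := hpq
  simp only at hp hq
  obtain ⟨s, t, e1, e2, e3⟩ := hline p hp q hq
  rw [e3, Prod.mk.injEq] at hc
  obtain ⟨hcA, hcB⟩ := hc
  obtain ⟨ε, hε, hsm⟩ := exists_small (W ∪ (A ∪ B)) (fun v => s * X v + t - Y v)
  have habove : ∀ v ∈ W ∪ (A ∪ B), (s * X v + (t - ε) < Y v ↔ s * X v + t ≤ Y v) := by
    intro v hv
    constructor
    · intro h
      by_contra hcon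
      have := hsm v hv (by linarith [not_le.1 hcon])
      linarith
    · intro h
      linarith
  refine ⟨s, t - ε, ?_, ?_, ?_⟩
  · intro v hv h
    have hv' : v ∈ W ∪ (A ∪ B) := Finset.mem_union_left _ hv
    have := hsm v hv' (by linarith)
    linarith
  · have : A.filter (fun v => s * X v + (t - ε) < Y v)
        = insert p (A.filter (fun v => s * X v + t < Y v)) := by
      ext v
      rw [Finset.mem_insert, Finset.mem_filter, Finset.mem_filter]
      constructor
      · rintro ⟨hv, h⟩
        have hv' : v ∈ W ∪ (A ∪ B) := by simp [hv]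
        rcases ((habove v hv').1 h).lt_or_eq with h' | h'
        · exact Or.inr ⟨hv, h'⟩
        · left
          by_contra hne
          exact hne (hthree s t v (by simp [hv]) q (by simp [hq]) p (by simp [hp]) h'.symm e2 e1
            (hAB v hv q hq) (hAB p hp q hq).symm)
      · rintro (rfl | ⟨hv, h⟩)
        · exact ⟨hp, by linarith⟩
        · exact ⟨hv, by linarith⟩
    rw [this, Finset.card_insert_of_notMem, hcA]
    · omega
    · rw [Finset.mem_filter]
      rintro ⟨_, h⟩
      linarith
  · have : B.filter (fun v => s * X v + (t - ε) < Y v)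
        = insert q (B.filter (fun v => s * X v + t < Y v)) := by
      ext v
      rw [Finset.mem_insert, Finset.mem_filter, Finset.mem_filter]
      constructor
      · rintro ⟨hv, h⟩
        have hv' : v ∈ W ∪ (A ∪ B) := by simp [hv]
        rcases ((habove v hv').1 h).lt_or_eq with h' | h'
        · exact Or.inr ⟨hv, h'⟩
        · left
          by_contra hne
          exact hne (hthree s t v (by simp [hv]) p (by simp [hp]) q (by simp [hq]) h'.symm e1 e2
            (hAB p hp v hv).symm (hAB p hp q hq))
      · rintro (rfl | ⟨hv, h⟩)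
        · exact ⟨hq, by linarith⟩
        · exact ⟨hv, by linarith⟩
    rw [this, Finset.card_insert_of_notMem, hcB]
    · omega
    · rw [Finset.mem_filter]
      rintro ⟨_, h⟩
      linarith

end Pool.Agent.H41.Stab
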