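import Pool.Agent.H41.StabDefs

/-!
Lower bound for MP_b5bf4a_co: circulant-like graphs on points of a parabola.
-/

set_option autoImplicit false

namespace Pool.Agent.H41.Stab

open Finset

/-! ### the points -/

/-- points on the parabola -/
noncomputable def par (n : ℕ) : Fin n → ℝ × ℝ := fun i => ((i : ℕ), ((i : ℕ) : ℝ) ^ 2)

lemma par_genPos (n : ℕ) : GenPos (par n) := by
  constructor
  · intro i j h
    simp only [par, Prod.mk.injEq] at h
    exact Fin.ext (by exact_mod_cast h.1)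
  · intro i j k hij hjk hik hcol
    rw [collinear_iff_of_mem (p₀ := par n i) (by simp)] at hcol
    obtain ⟨v, hv⟩ := hcol
    obtain ⟨r, hr⟩ := hv (par n j) (by simp)
    obtain ⟨t, ht⟩ := hv (par n k) (by simp)
    have h1 : ((j : ℕ) : ℝ) = r * v.1 + ((i : ℕ) : ℝ) := congrArg Prod.fst hr
    have h2 : ((j : ℕ) : ℝ) ^ 2 = r * v.2 + ((i : ℕ) : ℝ) ^ 2 := congrArg Prod.snd hr
    have h3 : ((k : ℕ) : ℝ) = t * v.1 + ((i : ℕ) : ℝ) := congrArg Prod.fst ht
    have h4 : ((k : ℕ) : ℝ) ^ 2 = t * v.2 + ((i : ℕ) : ℝ) ^ 2 := congrArg Prod.snd ht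
    have h5 : (((j : ℕ) : ℝ) - (i : ℕ)) * ((((k : ℕ) : ℝ) - (i : ℕ)) * (((k : ℕ) : ℝ) - (j : ℕ)))
        = 0 := by
      have e1 : ((j : ℕ) : ℝ) - (i : ℕ) = r * v.1 := by linarith
      have e3 : ((k : ℕ) : ℝ) - (i : ℕ) = t * v.1 := by linarith
      have e2 : ((j : ℕ) : ℝ) ^ 2 - ((i : ℕ) : ℝ) ^ 2 = r * v.2 := by linarith
      have e4 : ((k : ℕ) : ℝ) ^ 2 - ((i : ℕ) : ℝ) ^ 2 = t * v.2 := by linarith
      have : (((j : ℕ) : ℝ) - (i : ℕ)) * ((((k : ℕ) : ℝ) - (i : ℕ)) * (((k : ℕ) : ℝ) - (j : ℕ)))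
          = (((j : ℕ) : ℝ) - (i : ℕ)) * (((k : ℕ) : ℝ) ^ 2 - ((i : ℕ) : ℝ) ^ 2)
            - (((k : ℕ) : ℝ) - (i : ℕ)) * (((j : ℕ) : ℝ) ^ 2 - ((i : ℕ) : ℝ) ^ 2) := by ring
      rw [this, e1, e2, e3, e4]
      ring
    have hne : ∀ x y : Fin n, x ≠ y → ((y : ℕ) : ℝ) - (x : ℕ) ≠ 0 := by
      intro x y hxy h
      apply hxy
      apply Fin.ext
      have : ((x : ℕ) : ℝ) = ((y : ℕ) : ℝ) := by linarith
      exact_mod_cast this
    rcases mul_eq_zero.1 h5 with h | h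
    · exact hne i j hij h
    · rcases mul_eq_zero.1 h with h | h
      · exact hne i k hik h
      · exact hne j k hjk h

/-- an order-convex predicate is an interval -/
lemma interval_of_convex (n : ℕ) (T : ℕ → Prop)
    (hT : ∀ i j k, i < j → j < k → k < n → T i → T k → T j) :
    ∃ lo hi : ℕ, lo ≤ hi ∧ hi ≤ n ∧ ∀ t < n, (T t ↔ lo ≤ t ∧ t < hi) := by
  classical
  by_cases hne : ((Finset.range n).filter T).Nonempty
  · refine ⟨((Finset.range n).filter T).min' hne, ((Finset.range n).filter T).max' hne + 1, ?_, ?_,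
      ?_⟩
    · exact (Finset.min'_le_max' _ hne).trans (Nat.le_succ _)
    · have := Finset.max'_mem _ hne
      rw [Finset.mem_filter, Finset.mem_range] at this
      exact this.1
    · intro t ht
      have h1 := Finset.min'_mem _ hne
      have h2 := Finset.max'_mem _ hne
      rw [Finset.mem_filter, Finset.mem_range] at h1 h2
      constructor
      · intro hTt
        have hmem : t ∈ (Finset.range n).filter T := by simp [ht, hTt]
        exact ⟨Finset.min'_le _ _ hmem, Nat.lt_succ_of_le (Finset.le_max' _ _ hmem)⟩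
      · rintro ⟨h3, h4⟩
        rcases h3.lt_or_eq with h3 | h3
        · rcases (Nat.lt_succ_iff.1 h4).lt_or_eq with h4 | h4
          · exact hT _ t _ h3 h4 h2.1 h1.2 h2.2
          · rw [h4]; exact h2.2
        · rw [← h3]; exact h1.2
  · refine ⟨0, 0, le_rfl, Nat.zero_le _, ?_⟩
    intro t ht
    rw [Finset.not_nonempty_iff_eq_empty, Finset.filter_eq_empty_iff] at hne
    have := hne (Finset.mem_range.2 ht)
    simp [this]

/-- a line splits the points of the parabola into an interval and its complement, up to points on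
the line; every edge which is met has exactly one end in the interval -/
lemma line_interval_aux (n : ℕ) (a b c : ℝ) (hab : a ≠ 0 ∨ b ≠ 0) (hb : 0 ≤ b) :
    ∃ lo hi : ℕ, lo ≤ hi ∧ hi ≤ n ∧ ∀ i j : ℕ, i < n → j < n → i ≠ j → ∀ α β : ℝ, 0 < α → 0 < β →
      α * (a * i + b * (i : ℝ) ^ 2 - c) + β * (a * j + b * (j : ℝ) ^ 2 - c) = 0 →
      ¬ ((lo ≤ i ∧ i < hi) ↔ (lo ≤ j ∧ j < hi)) := by
  obtain ⟨lo, hi, h1, h2, h3⟩ := interval_of_convex n
    (fun t => a * t + b * (t : ℝ) ^ 2 - c < 0 ∨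
      (a * t + b * (t : ℝ) ^ 2 - c = 0 ∧ 0 < a + 2 * b * t)) (by
    intro i j k hij hjk _ hi hk
    left
    have hi0 : a * i + b * (i : ℝ) ^ 2 - c ≤ 0 := by
      rcases hi with h | h
      · exact h.le
      · exact h.1.le
    have hk0 : a * k + b * (k : ℝ) ^ 2 - c ≤ 0 := by
      rcases hk with h | h
      · exact h.le
      · exact h.1.le
    have hij' : (i : ℝ) < j := by exact_mod_cast hij
    have hjk' : (j : ℝ) < k := by exact_mod_cast hjk
    have hid : ((k : ℝ) - i) * (a * j + b * (j : ℝ) ^ 2 - c)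
        = ((k : ℝ) - j) * (a * i + b * (i : ℝ) ^ 2 - c)
          + ((j : ℝ) - i) * (a * k + b * (k : ℝ) ^ 2 - c)
          - b * (((j : ℝ) - i) * ((k : ℝ) - j) * ((k : ℝ) - i)) := by ring
    have hneg : ((k : ℝ) - i) * (a * j + b * (j : ℝ) ^ 2 - c) < 0 := by
      rw [hid]
      have p1 : 0 < (k : ℝ) - j := by linarith
      have p2 : 0 < (j : ℝ) - i := by linarith
      have p3 : 0 < (k : ℝ) - i := by linarith
      have q1 : ((k : ℝ) - j) * (a * i + b * (i : ℝ) ^ 2 - c) ≤ 0 :=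
        mul_nonpos_of_nonneg_of_nonpos p1.le hi0
      have q2 : ((j : ℝ) - i) * (a * k + b * (k : ℝ) ^ 2 - c) ≤ 0 :=
        mul_nonpos_of_nonneg_of_nonpos p2.le hk0
      rcases hb.lt_or_eq with hb' | hb'
      · have : 0 < b * (((j : ℝ) - i) * ((k : ℝ) - j) * ((k : ℝ) - i)) := by positivity
        linarith
      · subst hb'
        have ha : a ≠ 0 := by
          rcases hab with h | h
          · exact h
          · exact absurd rfl h
        have hor : a * i + 0 * (i : ℝ) ^ 2 - c < 0 ∨ a * k + 0 * (k : ℝ) ^ 2 - c < 0 := by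
          by_contra hcon
          push Not at hcon
          have : a * ((k : ℝ) - i) = 0 := by linarith
          rcases mul_eq_zero.1 this with h | h
          · exact ha h
          · linarith
        rcases hor with h | h
        · have : ((k : ℝ) - j) * (a * i + 0 * (i : ℝ) ^ 2 - c) < 0 := mul_neg_of_pos_of_neg p1 h
          linarith
        · have : ((j : ℝ) - i) * (a * k + 0 * (k : ℝ) ^ 2 - c) < 0 := mul_neg_of_pos_of_neg p2 h
          linarith
    by_contra hcon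
    have := mul_nonneg (by linarith : (0 : ℝ) ≤ (k : ℝ) - i) (not_lt.1 hcon)
    linarith)
  refine ⟨lo, hi, h1, h2, ?_⟩
  intro i j hi hj hij α β hα hβ hz hiff
  rw [← h3 i hi, ← h3 j hj] at hiff
  have hij' : (i : ℝ) - j ≠ 0 := by
    intro h
    apply hij
    have : (i : ℝ) = j := by linarith
    exact_mod_cast this
  rcases lt_trichotomy (a * i + b * (i : ℝ) ^ 2 - c) 0 with h | h | h
  · have h4 : 0 < a * j + b * (j : ℝ) ^ 2 - c := by
      by_contra hcon
      have := mul_neg_of_pos_of_neg hα h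
      have := mul_nonpos_of_nonneg_of_nonpos hβ.le (not_lt.1 hcon)
      linarith
    rcases hiff.1 (Or.inl h) with h5 | h5
    · linarith
    · linarith [h5.1]
  · have h4 : a * j + b * (j : ℝ) ^ 2 - c = 0 := by
      rw [h, mul_zero, zero_add] at hz
      rcases mul_eq_zero.1 hz with h | h
      · exact absurd h hβ.ne'
      · exact h
    have h5 : a + b * ((i : ℝ) + j) = 0 := by
      have : ((i : ℝ) - j) * (a + b * ((i : ℝ) + j)) = 0 := by linarith
      rcases mul_eq_zero.1 this with h | h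
      · exact absurd h hij'
      · exact h
    have hbpos : b ≠ 0 := by
      rintro rfl
      rcases hab with h6 | h6
      · apply h6; linarith
      · exact h6 rfl
    have h6 : a + 2 * b * i = b * ((i : ℝ) - j) := by linarith
    have h7 : a + 2 * b * j = -(b * ((i : ℝ) - j)) := by linarith
    have h8 : b * ((i : ℝ) - j) ≠ 0 := mul_ne_zero hbpos hij'
    rw [h6, h7, h, h4] at hiff
    simp only [lt_self_iff_false, true_and, false_or] at hiff
    rcases lt_or_gt_of_ne h8 with h9 | h9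
    · have := hiff.2 (by linarith)
      linarith
    · have := hiff.1 h9
      linarith
  · have h4 : a * j + b * (j : ℝ) ^ 2 - c < 0 := by
      by_contra hcon
      have := mul_pos hα h
      have := mul_nonneg hβ.le (not_lt.1 hcon)
      linarith
    rcases hiff.2 (Or.inl h4) with h5 | h5
    · linarith
    · linarith [h5.1]

lemma line_interval (n : ℕ) (a b c : ℝ) (hab : a ≠ 0 ∨ b ≠ 0) :
    ∃ lo hi : ℕ, lo ≤ hi ∧ hi ≤ n ∧ ∀ i j : ℕ, i < n → j < n → i ≠ j → ∀ α β : ℝ, 0 < α → 0 < β →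
      α * (a * i + b * (i : ℝ) ^ 2 - c) + β * (a * j + b * (j : ℝ) ^ 2 - c) = 0 →
      ¬ ((lo ≤ i ∧ i < hi) ↔ (lo ≤ j ∧ j < hi)) := by
  rcases le_total 0 b with hb | hb
  · exact line_interval_aux n a b c hab hb
  · obtain ⟨lo, hi, h1, h2, h3⟩ := line_interval_aux n (-a) (-b) (-c) (by simpa using hab)
      (by linarith)
    refine ⟨lo, hi, h1, h2, ?_⟩
    intro i j hi hj hij α β hα hβ hz
    exact h3 i j hi hj hij α β hα hβ (by linarith)

/-! ### the graph -/

/-- reduction modulo `n` -/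
def toF {n : ℕ} (hn : 0 < n) (x : ℕ) : Fin n := ⟨x % n, Nat.mod_lt _ hn⟩

/-- edge of an arc `(i, ℓ)` from `i` to `i + ℓ` -/
def arcEdge {n : ℕ} (hn : 0 < n) (x : ℕ × ℕ) : Sym2 (Fin n) := s(toF hn x.1, toF hn (x.1 + x.2))

lemma toF_inj {n : ℕ} (hn : 0 < n) {x y : ℕ} (h : toF hn x = toF hn y) : x % n = y % n := by
  exact congrArg Fin.val h

lemma arcEdge_injOn {n : ℕ} (hn : 0 < n) (A : Finset (ℕ × ℕ))
    (hA : ∀ x ∈ A, x.1 < n ∧ 1 ≤ x.2 ∧ 2 * x.2 < n) : Set.InjOn (arcEdge hn) A := by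
  rintro ⟨i, l⟩ hx ⟨j, m⟩ hy h
  obtain ⟨h1, h2, h3⟩ := hA _ hx
  obtain ⟨h4, h5, h6⟩ := hA _ hy
  simp only at h1 h2 h3 h4 h5 h6
  simp only [arcEdge, Sym2.eq_iff] at h
  have hmod : ∀ a b : ℕ, a < n → b < n → (a + b) % n = a + b ∨ (a + b) % n + n = a + b := by
    intro a b ha hb
    rcases lt_or_ge (a + b) n with h | h
    · left; exact Nat.mod_eq_of_lt h
    · right
      rw [Nat.mod_eq_sub_mod h, Nat.mod_eq_of_lt (by omega)]
      omega
  rcases h with ⟨e1, e2⟩ | ⟨e1, e2⟩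
  · have e1 := toF_inj hn e1
    have e2 := toF_inj hn e2
    rw [Nat.mod_eq_of_lt h1, Nat.mod_eq_of_lt h4] at e1
    subst e1
    have := hmod i l h1 (by omega)
    have := hmod i m h1 (by omega)
    have : l = m := by omega
    rw [this]
  · exfalso
    have e1 := toF_inj hn e1
    have e2 := toF_inj hn e2
    rw [Nat.mod_eq_of_lt h1] at e1
    rw [Nat.mod_eq_of_lt h4] at e2
    have := hmod i l h1 (by omega)
    have := hmod j m h4 (by omega)
    omega

lemma arcEdge_not_diag {n : ℕ} (hn : 0 < n) {x : ℕ × ℕ}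
    (hx : x.1 < n ∧ 1 ≤ x.2 ∧ 2 * x.2 < n) : ¬ (arcEdge hn x).IsDiag := by
  obtain ⟨h1, h2, h3⟩ := hx
  intro h
  simp only [arcEdge, Sym2.mk_isDiag_iff] at h
  have e := toF_inj hn h
  rw [Nat.mod_eq_of_lt h1] at e
  rcases lt_or_ge (x.1 + x.2) n with h | h
  · rw [Nat.mod_eq_of_lt h] at e
    omega
  · rw [Nat.mod_eq_sub_mod h, Nat.mod_eq_of_lt (by omega)] at e
    omega

/-- the graph of a set of arcs -/
def arcGraph {n : ℕ} (hn : 0 < n) (A : Finset (ℕ × ℕ)) : SimpleGraph (Fin n) :=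
  SimpleGraph.fromEdgeSet (arcEdge hn '' (A : Set (ℕ × ℕ)))

lemma arcGraph_edgeSet {n : ℕ} (hn : 0 < n) (A : Finset (ℕ × ℕ))
    (hA : ∀ x ∈ A, x.1 < n ∧ 1 ≤ x.2 ∧ 2 * x.2 < n) :
    (arcGraph hn A).edgeSet = arcEdge hn '' (A : Set (ℕ × ℕ)) := by
  rw [arcGraph, SimpleGraph.edgeSet_fromEdgeSet]
  ext e
  constructor
  · rintro ⟨h, _⟩
    exact h
  · intro h
    refine ⟨h, ?_⟩
    obtain ⟨x, hx, rfl⟩ := h
    exact arcEdge_not_diag hn (hA x hx)

lemma arcGraph_ncard {n : ℕ} (hn : 0 < n) (A : Finset (ℕ × ℕ))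
    (hA : ∀ x ∈ A, x.1 < n ∧ 1 ≤ x.2 ∧ 2 * x.2 < n) :
    (arcGraph hn A).edgeSet.ncard = A.card := by
  rw [arcGraph_edgeSet hn A hA, Set.InjOn.ncard_image (arcEdge_injOn hn A hA),
    Set.ncard_coe_finset]

/-- the arcs covering the gap before `g` -/
def Covers (n g : ℕ) (x : ℕ × ℕ) : Prop := ∃ r < x.2, (x.1 + r + 1) % n = g

lemma step_change {n lo hi : ℕ} (hn : 0 < n) (h2 : hi ≤ n) (x : ℕ)
    (h : ¬ ((lo ≤ x % n ∧ x % n < hi) ↔ (lo ≤ (x + 1) % n ∧ (x + 1) % n < hi))) :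
    (x + 1) % n = lo % n ∨ (x + 1) % n = hi % n := by
  have hx := Nat.mod_lt x hn
  rcases Nat.lt_or_ge (x % n + 1) n with h3 | h3
  · have h4 : (x + 1) % n = x % n + 1 := by
      rw [Nat.add_mod, Nat.mod_eq_of_lt (by omega : 1 < n), Nat.mod_eq_of_lt h3]
    rw [h4] at h ⊢
    have h5 : x % n + 1 = lo ∨ x % n + 1 = hi := by
      by_contra hcon
      push Not at hcon
      apply h
      constructor <;> intro h' <;> omega
    rcases h5 with h5 | h5
    · left; rw [← h5, Nat.mod_eq_of_lt h3]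
    · right; rw [← h5, Nat.mod_eq_of_lt h3]
  · have h4 : (x + 1) % n = 0 := by
      have h6 : x % n + 1 = n := by omega
      have h7 := Nat.div_add_mod x n
      have h8 : x + 1 = n * (x / n + 1) := by
        rw [mul_add, mul_one]
        omega
      rw [h8, Nat.mul_mod_right]
    rw [h4] at h ⊢
    rcases Nat.eq_zero_or_pos lo with h5 | h5
    · left; rw [h5, Nat.zero_mod]
    · rcases h2.lt_or_eq with h6 | h6
      · exfalso
        apply h
        constructor <;> intro h' <;> omega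
      · right; rw [h6, Nat.mod_self]

lemma cross_covers {n lo hi : ℕ} (hn : 0 < n) (h2 : hi ≤ n) (i : ℕ) :
    ∀ l : ℕ, ¬ ((lo ≤ i % n ∧ i % n < hi) ↔ (lo ≤ (i + l) % n ∧ (i + l) % n < hi)) →
      Covers n (lo % n) (i, l) ∨ Covers n (hi % n) (i, l) := by
  intro l
  induction l with
  | zero => intro h; exact absurd Iff.rfl h
  | succ l ih =>
    intro h
    by_cases hc : ((lo ≤ i % n ∧ i % n < hi) ↔ (lo ≤ (i + l) % n ∧ (i + l) % n < hi))
    · rw [hc] at h
      rcases step_change hn h2 (i + l) h with h3 | h3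
      · left; exact ⟨l, Nat.lt_succ_self l, h3⟩
      · right; exact ⟨l, Nat.lt_succ_self l, h3⟩
    · rcases ih hc with ⟨r, hr, h3⟩ | ⟨r, hr, h3⟩
      · left; exact ⟨r, Nat.lt_succ_of_lt hr, h3⟩
      · right; exact ⟨r, Nat.lt_succ_of_lt hr, h3⟩

/-- every line meets at most as many edges as there are arcs covering one of two gaps -/
lemma arcGraph_met {n : ℕ} (hn : 0 < n) (A : Finset (ℕ × ℕ))
    (hA : ∀ x ∈ A, x.1 < n ∧ 1 ≤ x.2 ∧ 2 * x.2 < n) (M : ℕ)
    (hM : ∀ g < n, ∃ Z : Finset (ℕ × ℕ), Z.card ≤ M ∧ ∀ x ∈ A, Covers n g x → x ∈ Z)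
    (a b c : ℝ) (hab : a ≠ 0 ∨ b ≠ 0) :
    (metEdges (par n) (arcGraph hn A) a b c).ncard ≤ 2 * M := by
  classical
  obtain ⟨lo, hi, h1, h2, h3⟩ := line_interval n a b c hab
  obtain ⟨Z, hZ, hZ'⟩ := hM (lo % n) (Nat.mod_lt _ hn)
  obtain ⟨W, hW, hW'⟩ := hM (hi % n) (Nat.mod_lt _ hn)
  have hsub : metEdges (par n) (arcGraph hn A) a b c ⊆ arcEdge hn '' ((Z ∪ W : Finset (ℕ × ℕ)) :
      Set (ℕ × ℕ)) := by
    rintro e ⟨he, i, j, hij, z, hz, hzc⟩
    rw [arcGraph_edgeSet hn A hA] at he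
    obtain ⟨x, hx, hxe⟩ := he
    refine ⟨x, ?_, hxe⟩
    obtain ⟨g1, g2, g3⟩ := hA x hx
    obtain ⟨α, β, hα, hβ, hαβ, rfl⟩ := hz
    have hz0 : α * (a * (i : ℕ) + b * ((i : ℕ) : ℝ) ^ 2 - c)
        + β * (a * (j : ℕ) + b * ((j : ℕ) : ℝ) ^ 2 - c) = 0 := by
      simp only [par, Prod.fst_add, Prod.smul_fst, Prod.snd_add, Prod.smul_snd, smul_eq_mul] at hzc
      have : α * (a * (i : ℕ) + b * ((i : ℕ) : ℝ) ^ 2 - c)
        + β * (a * (j : ℕ) + b * ((j : ℕ) : ℝ) ^ 2 - c)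
        = (a * (α * ((i : ℕ) : ℝ) + β * ((j : ℕ) : ℝ))
          + b * (α * ((i : ℕ) : ℝ) ^ 2 + β * ((j : ℕ) : ℝ) ^ 2)) - (α + β) * c := by ring
      rw [this, hzc, hαβ]
      ring
    have hne : (i : ℕ) ≠ (j : ℕ) := by
      intro h
      apply arcEdge_not_diag hn (hA x hx)
      rw [hxe, hij, Fin.ext h]
      simp
    have hcross := h3 i j i.2 j.2 hne α β hα hβ hz0
    have hx1 : (toF hn x.1 : Fin n).val = x.1 % n := rfl
    have hx2 : (toF hn (x.1 + x.2) : Fin n).val = (x.1 + x.2) % n := rfl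
    have hcr : ¬ ((lo ≤ x.1 % n ∧ x.1 % n < hi) ↔
        (lo ≤ (x.1 + x.2) % n ∧ (x.1 + x.2) % n < hi)) := by
      rw [hij, arcEdge, Sym2.eq_iff] at hxe
      rcases hxe with ⟨e1, e2⟩ | ⟨e1, e2⟩
      · rw [← hx1, ← hx2, e1, e2]
        exact hcross
      · rw [← hx1, ← hx2, e1, e2]
        exact fun h => hcross h.symm
    have hcov := cross_covers hn h2 x.1 x.2 hcr
    rw [Finset.coe_union, Set.mem_union, Finset.mem_coe, Finset.mem_coe]
    rcases hcov with h | h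
    · left; exact hZ' x hx h
    · right; exact hW' x hx h
  calc (metEdges (par n) (arcGraph hn A) a b c).ncard
      ≤ (arcEdge hn '' ((Z ∪ W : Finset (ℕ × ℕ)) : Set (ℕ × ℕ))).ncard :=
        Set.ncard_le_ncard hsub (Set.toFinite _)
    _ ≤ ((Z ∪ W : Finset (ℕ × ℕ)) : Set (ℕ × ℕ)).ncard := Set.ncard_image_le (Finset.finite_toSet _)
    _ = (Z ∪ W).card := Set.ncard_coe_finset _
    _ ≤ Z.card + W.card := Finset.card_union_le _ _
    _ ≤ 2 * M := by omega

end Pool.Agent.H41.Stab
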