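import Pool.Agent.H41.StabComb

/-!
Upper bounds for MP_b5bf4a_co with an arbitrary number of cells.
-/

set_option autoImplicit false

namespace Pool.Agent.H41.Stab

open Finset

variable {n : ℕ} {p : Fin n → ℝ × ℝ} {G : SimpleGraph (Fin n)} {K : ℕ}

/-- three consecutive strips -/
lemma three_part (hcut : ∀ S, LineCut p S → cc G S Sᶜ ≤ K) {P : ℕ → Finset (Fin n)}
    (hP : ∀ s, s ≤ n → LineCut p (P s) ∧ (P s).card = s)
    (hmono : ∀ s s', s ≤ s' → s' ≤ n → P s ⊆ P s') (a s : ℕ) (has : a + s ≤ n) :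
    2 * G.edgeSet.ncard ≤ cc G (P a) (P a) + s * (s - 1) + cc G (P (a + s))ᶜ (P (a + s))ᶜ
      + 4 * K := by
  classical
  obtain ⟨h1, h2⟩ := hP a (by omega)
  obtain ⟨h3, h4⟩ := hP (a + s) has
  have hsub := hmono a (a + s) (by omega) has
  have e1 := cc_split G Finset.univ (P a)
  rw [Finset.univ_inter, ← Finset.compl_eq_univ_sdiff] at e1
  have e2 := cc_split G (P a)ᶜ (P (a + s))
  have e3 : (P a)ᶜ \ P (a + s) = (P (a + s))ᶜ := by
    ext v
    simp only [Finset.mem_sdiff, Finset.mem_compl]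
    constructor
    · exact fun h => h.2
    · exact fun h => ⟨fun h' => h (hsub h'), h⟩
  rw [e3] at e2
  have e4 : ((P a)ᶜ ∩ P (a + s)).card = s := by
    have : (P a)ᶜ ∩ P (a + s) = P (a + s) \ P a := by
      ext v
      simp only [Finset.mem_sdiff, Finset.mem_compl, Finset.mem_inter]
      tauto
    rw [this, Finset.card_sdiff_of_subset hsub, h4, h2]
    omega
  have e5 := cc_self_le G ((P a)ᶜ ∩ P (a + s))
  rw [e4] at e5
  have e6 := hcut _ h1
  have e7 := hcut _ h3
  have e8 : cc G ((P a)ᶜ ∩ P (a + s)) (P (a + s))ᶜ ≤ cc G (P (a + s)) (P (a + s))ᶜ :=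
    cc_mono G Finset.inter_subset_right (Finset.Subset.refl _)
  rw [← cc_univ]
  omega

lemma two_part (hcut : ∀ S, LineCut p S → cc G S Sᶜ ≤ K) {P : ℕ → Finset (Fin n)}
    (hP : ∀ s, s ≤ n → LineCut p (P s) ∧ (P s).card = s) (a : ℕ) (ha : a ≤ n) :
    2 * G.edgeSet.ncard ≤ cc G (P a) (P a) + cc G (P a)ᶜ (P a)ᶜ + 2 * K := by
  classical
  obtain ⟨h1, h2⟩ := hP a (by omega)
  have e1 := cc_split G Finset.univ (P a)
  rw [Finset.univ_inter, ← Finset.compl_eq_univ_sdiff] at e1
  have e6 := hcut _ h1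
  rw [← cc_univ]
  omega

lemma decouple_chain (hp : GenPos p) (hcut : ∀ S, LineCut p S → cc G S Sᶜ ≤ K)
    {P : ℕ → Finset (Fin n)} (hP : ∀ s, s ≤ n → LineCut p (P s) ∧ (P s).card = s)
    {l l' : List ℕ} (hl : l ≠ []) (hpos : ∀ s ∈ l, 1 ≤ s)
    (hl' : l' ≠ []) (hpos' : ∀ s ∈ l', 1 ≤ s) (hsum : l.sum + l'.sum = n) :
    ∃ t ≤ K, cc G (P l.sum)ᶜ (P l.sum)ᶜ ≤ 2 * (l'.length - 1) * t + Sg l' ∧
      cc G (P l.sum) (P l.sum) ≤ 2 * (l.length - 1) * (K - t) + Sg l := by
  classical
  obtain ⟨hP1, hP2⟩ := hP l.sum (by omega)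
  have hcompl : (P l.sum)ᶜ.card = l'.sum := by
    rw [Finset.card_compl, Fintype.card_fin, hP2]
    omega
  exact decouple hp hcut hP1 (Finset.Subset.refl _)
    (disjoint_compl_left) hl hpos hP2.symm hl' hpos' hcompl.symm

/-- upper bound, any number of cells -/
theorem upper_gen (hp : GenPos p) (hcut : ∀ S, LineCut p S → cc G S Sᶜ ≤ K)
    {c : ℕ} (hc : 2 * c ≤ K) (hc' : K ≤ 2 * c + 1)
    {l : List ℕ} (hl : l ≠ []) (hpos : ∀ s ∈ l, 1 ≤ s) (hsum : l.sum = n) :
    2 * G.edgeSet.ncard + 6 * c ≤ 2 * l.length * c + 4 * K + Sg l := by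
  classical
  obtain ⟨P, hP, hmono⟩ := exists_chain hp.1
  have main : ∀ l2 l1 : List ℕ, l1 ≠ [] → l2 ≠ [] → (∀ s ∈ l1, 1 ≤ s) → (∀ s ∈ l2, 1 ≤ s) →
      l1.sum + l2.sum = n →
      cc G (P l1.sum) (P l1.sum) ≤ 2 * (l1.length - 1) * c + Sg l1 →
      2 * G.edgeSet.ncard + 6 * c ≤ 2 * (l1.length + l2.length) * c + 4 * K
        + (Sg l1 + Sg l2) := by
    intro l2
    induction l2 with
    | nil => intro l1 _ h; exact absurd rfl h
    | cons s l2 ih =>
      intro l1 hl1 _ hpos1 hpos2 hsum12 hgood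
      have hlen1 : 1 ≤ l1.length := by
        rcases l1 with _ | ⟨x, l1⟩
        · exact absurd rfl hl1
        · simp
      obtain ⟨m, hm⟩ : ∃ m, l1.length = m + 1 := ⟨l1.length - 1, by omega⟩
      rw [hm, Nat.add_sub_cancel] at hgood
      rw [List.sum_cons] at hsum12
      by_cases hl2 : l2 = []
      · subst hl2
        rw [List.sum_nil, add_zero] at hsum12
        have h1 := two_part hcut hP l1.sum (by omega)
        have h2 := cc_self_le G (P l1.sum)ᶜ
        rw [Finset.card_compl, Fintype.card_fin, (hP l1.sum (by omega)).2] at h2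
        have h3 : n - l1.sum = s := by omega
        rw [h3] at h2
        simp only [Sg_cons, Sg_nil, List.length_singleton, hm]
        nlinarith
      · have hlen2 : 1 ≤ l2.length := by
          rcases l2 with _ | ⟨x, l2⟩
          · exact absurd rfl hl2
          · simp
        obtain ⟨m2, hm2⟩ : ∃ m2, l2.length = m2 + 1 := ⟨l2.length - 1, by omega⟩
        have hs1 : (l1 ++ [s]).sum = l1.sum + s := by simp
        have hpos1' : ∀ x ∈ l1 ++ [s], 1 ≤ x := by
          intro x hx
          rw [List.mem_append, List.mem_singleton] at hx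
          rcases hx with hx | rfl
          · exact hpos1 x hx
          · exact hpos2 x (by simp)
        have hpos2' : ∀ x ∈ l2, 1 ≤ x := fun x hx => hpos2 x (by simp [hx])
        obtain ⟨t, ht, h1, h2⟩ := decouple_chain hp hcut hP (l := l1 ++ [s]) (l' := l2)
          (by simp) hpos1' hl2 hpos2' (by rw [hs1]; omega)
        rw [hs1] at h1 h2
        rw [hm2, Nat.add_sub_cancel] at h1
        have hlen3 : (l1 ++ [s]).length - 1 = m + 1 := by simp [hm]
        rw [hlen3] at h2
        have hSg : Sg (l1 ++ [s]) = Sg l1 + s * (s - 1) := by rw [Sg_append]; simp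
        rcases le_or_gt t c with htc | htc
        · -- the right part is good
          have h3 : cc G (P (l1.sum + s))ᶜ (P (l1.sum + s))ᶜ ≤ 2 * m2 * c + Sg l2 :=
            h1.trans (by gcongr)
          have h4 := three_part hcut hP hmono l1.sum s (by omega)
          simp only [Sg_cons, List.length_cons, hm, hm2]
          nlinarith
        · -- the extended left part is good
          have h3 : cc G (P (l1.sum + s)) (P (l1.sum + s)) ≤ 2 * (m + 1) * c
              + (Sg l1 + s * (s - 1)) := by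
            refine h2.trans ?_
            rw [hSg]
            have : K - t ≤ c := by omega
            gcongr
          have h4 := ih (l1 ++ [s]) (by simp) hl2 hpos1' hpos2' (by rw [hs1]; omega) (by
            rw [hs1, hlen3, hSg]; exact h3)
          rw [hSg] at h4
          simp only [List.length_append, List.length_singleton, hm, hm2] at h4
          simp only [Sg_cons, List.length_cons, hm, hm2]
          nlinarith
  rcases l with _ | ⟨s, l⟩
  · exact absurd rfl hl
  · by_cases hl0 : l = []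
    · subst hl0
      simp only [List.sum_cons, List.sum_nil, add_zero] at hsum
      have h1 := cc_self_le G (Finset.univ : Finset (Fin n))
      rw [cc_univ, Finset.card_univ, Fintype.card_fin] at h1
      have h2 : n * (n - 1) = s * (s - 1) := by rw [hsum]
      rw [h2] at h1
      simp only [Sg_cons, Sg_nil, List.length_singleton]
      nlinarith
    · rw [List.sum_cons] at hsum
      have h1 := main l [s] (by simp) hl0 (fun x hx => hpos x (by simp at hx; simp [hx]))
        (fun x hx => hpos x (by simp [hx])) (by simpa using hsum) (by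
          simp only [List.sum_singleton, List.length_singleton, Nat.sub_self, mul_zero, zero_mul,
            zero_add, Sg_cons, Sg_nil, add_zero]
          have := cc_self_le G (P s)
          rwa [(hP s (by omega)).2] at this)
      simp only [List.length_singleton, Sg_cons, Sg_nil] at h1
      simp only [Sg_cons, List.length_cons]
      nlinarith

/-- upper bound for even `K = 2c` and `2m + 1` cells -/
theorem upper_odd {c : ℕ} (hp : GenPos p) (hcut : ∀ S, LineCut p S → cc G S Sᶜ ≤ 2 * c)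
    {l₁ l₂ : List ℕ} {s m : ℕ} (h1 : l₁.length = m) (h2 : l₂.length = m) (hm : 1 ≤ m)
    (hpos1 : ∀ x ∈ l₁, 1 ≤ x) (hpos2 : ∀ x ∈ l₂, 1 ≤ x) (hs : 1 ≤ s)
    (hsum : l₁.sum + s + l₂.sum = n) (hcm : c + 2 ≤ 2 * m) :
    2 * G.edgeSet.ncard ≤ 2 * (2 * m + 1) * c + (Sg l₁ + s * (s - 1) + Sg l₂) := by
  classical
  obtain ⟨P, hP, hmono⟩ := exists_chain hp.1
  have hl1 : l₁ ≠ [] := by
    rintro rfl
    rw [List.length_nil] at h1
    omega
  have hl2 : l₂ ≠ [] := by
    rintro rfl
    rw [List.length_nil] at h2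
    omega
  have hs1 : (l₁ ++ [s]).sum = l₁.sum + s := by simp
  have hpos1' : ∀ x ∈ l₁ ++ [s], 1 ≤ x := by
    intro x hx
    rw [List.mem_append, List.mem_singleton] at hx
    rcases hx with hx | rfl
    · exact hpos1 x hx
    · exact hs
  have hpos2' : ∀ x ∈ s :: l₂, 1 ≤ x := by
    intro x hx
    rw [List.mem_cons] at hx
    rcases hx with rfl | hx
    · exact hs
    · exact hpos2 x hx
  have hSg : Sg (l₁ ++ [s]) = Sg l₁ + s * (s - 1) := by rw [Sg_append]; simp
  obtain ⟨m', rfl⟩ : ∃ m', m = m' + 1 := ⟨m - 1, by omega⟩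
  obtain ⟨t, ht, e1, e2⟩ := decouple_chain hp hcut hP (l := l₁ ++ [s]) (l' := l₂)
    (by simp) hpos1' hl2 hpos2 (by rw [hs1]; omega)
  have hlen3 : (l₁ ++ [s]).length - 1 = m' + 1 := by simp [h1]
  rw [hs1, h2, Nat.add_sub_cancel] at e1
  rw [hs1, hlen3, hSg] at e2
  obtain ⟨t', ht', e1', e2'⟩ := decouple_chain hp hcut hP (l := l₁) (l' := s :: l₂)
    hl1 hpos1 (by simp) hpos2' (by rw [List.sum_cons]; omega)
  rw [List.length_cons, h2, Nat.add_sub_cancel, Sg_cons] at e1'
  rw [h1, Nat.add_sub_cancel] at e2'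
  rcases le_or_gt c t with htc | htc
  · have h3 := two_part hcut hP (l₁.sum + s) (by omega)
    obtain ⟨u, hu⟩ : ∃ u, 2 * c = t + u := ⟨2 * c - t, by omega⟩
    rw [hu, Nat.add_sub_cancel_left] at e2
    nlinarith
  · rcases le_or_gt t' c with htc' | htc'
    · have h3 := two_part hcut hP l₁.sum (by omega)
      obtain ⟨u, hu⟩ : ∃ u, 2 * c = t' + u := ⟨2 * c - t', by omega⟩
      rw [hu, Nat.add_sub_cancel_left] at e2'
      nlinarith
    · have h3 := three_part hcut hP hmono l₁.sum s (by omega)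
      obtain ⟨c', rfl⟩ : ∃ c', c = c' + 1 := ⟨c - 1, by omega⟩
      have e3 : cc G (P (l₁.sum + s))ᶜ (P (l₁.sum + s))ᶜ ≤ 2 * m' * c' + Sg l₂ := by
        refine e1.trans ?_
        have : t ≤ c' := by omega
        gcongr
      have e4 : cc G (P l₁.sum) (P l₁.sum) ≤ 2 * m' * c' + Sg l₁ := by
        refine e2'.trans ?_
        have : 2 * (c' + 1) - t' ≤ c' := by omega
        gcongr
      nlinarith

end Pool.Agent.H41.Stab
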